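import Pool.Agent.P.MP_7e8329_an.Side

set_option autoImplicit false

open Set MeasureTheory Filter Topology Complex Metric InnerProductSpace

namespace Pool.Agent.P.MP_7e8329_an

/-- A smooth step from `0` on `(-∞,1]` to `1` on `[2,∞)`. -/
noncomputable def η (x : ℝ) : ℝ := Real.smoothTransition (x - 1)

theorem η_contDiff : ContDiff ℝ 1 η :=
  (Real.smoothTransition.contDiff (n := 1)).comp (contDiff_id.sub contDiff_const)

theorem η_mono : Monotone η := fun _ _ h => Real.smoothTransition.monotone (by linarith)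

theorem η_nonneg (x : ℝ) : 0 ≤ η x := Real.smoothTransition.nonneg _

theorem η_le_one (x : ℝ) : η x ≤ 1 := Real.smoothTransition.le_one _

theorem η_zero {x : ℝ} (h : x ≤ 1) : η x = 0 := Real.smoothTransition.zero_of_nonpos (by linarith)

theorem η_one {x : ℝ} (h : 2 ≤ x) : η x = 1 := Real.smoothTransition.one_of_one_le (by linarith)

theorem η_hasDerivAt (x : ℝ) : HasDerivAt η (deriv η x) x :=
  (η_contDiff.differentiable (by simp) x).hasDerivAt

theorem η'_cont : Continuous (deriv η) := η_contDiff.continuous_deriv le_rfl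

theorem η'_nonneg (x : ℝ) : 0 ≤ deriv η x := η_mono.deriv_nonneg

theorem η'_zero {x : ℝ} (h : 2 < x) : deriv η x = 0 := by
  have : η =ᶠ[𝓝 x] fun _ => 1 := by
    filter_upwards [lt_mem_nhds h] with y hy
    exact η_one hy.le
  rw [this.deriv_eq, deriv_const]

theorem η'_zero' {x : ℝ} (h : x < 1) : deriv η x = 0 := by
  have : η =ᶠ[𝓝 x] fun _ => 0 := by
    filter_upwards [gt_mem_nhds h] with y hy
    exact η_zero hy.le
  rw [this.deriv_eq, deriv_const]

theorem oneD_mass {g g' : ℝ → ℝ} {r0 δ : ℝ}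
    (hg : ∀ r, HasDerivAt g (g' r) r) (hg' : Continuous g') (h0 : g 0 = 0) :
    ∫ r in (0 : ℝ)..r0, deriv η (g r / δ) / δ * g' r = η (g r0 / δ) := by
  have hgc : Continuous g := continuous_iff_continuousAt.mpr fun r => (hg r).continuousAt
  have hc := η'_cont
  have h1 := intervalIntegral.integral_eq_sub_of_hasDerivAt (a := 0) (b := r0)
    (f := fun r => η (g r / δ)) (f' := fun r => deriv η (g r / δ) / δ * g' r)
    (fun r _ => by
      have := (η_hasDerivAt (g r / δ)).comp r ((hg r).div_const δ)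
      exact this.congr_deriv (by ring))
    (Continuous.intervalIntegrable (by fun_prop) _ _)
  rw [h1, h0, zero_div, η_zero zero_le_one, sub_zero]

theorem oneD_bound {g g' G : ℝ → ℝ} {r0 δ B : ℝ} (hr0 : 0 < r0) (hδ : 0 < δ)
    (hg : ∀ r, HasDerivAt g (g' r) r) (hg' : Continuous g') (h0 : g 0 = 0)
    (hpos : ∀ r ∈ Icc 0 r0, 0 < g' r)
    (hB : ∀ r ∈ Icc 0 r0, deriv η (g r / δ) ≠ 0 → |G r| ≤ B) (hB0 : 0 ≤ B) :
    |∫ r in (0 : ℝ)..r0, deriv η (g r / δ) / δ * g' r * G r| ≤ B := by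
  have hgc : Continuous g := continuous_iff_continuousAt.mpr fun r => (hg r).continuousAt
  have hc := η'_cont
  have h1 := intervalIntegral.norm_integral_le_of_norm_le (μ := volume) (a := 0) (b := r0)
    (f := fun r => deriv η (g r / δ) / δ * g' r * G r)
    (g := fun r => deriv η (g r / δ) / δ * g' r * B) hr0.le
    (Eventually.of_forall fun r hr => by
      have hr' : r ∈ Icc 0 r0 := Ioc_subset_Icc_self hr
      have w0 : 0 ≤ deriv η (g r / δ) / δ * g' r :=
        mul_nonneg (div_nonneg (η'_nonneg _) hδ.le) (hpos r hr').le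
      rw [Real.norm_eq_abs, abs_mul, abs_of_nonneg w0]
      by_cases h2 : deriv η (g r / δ) = 0
      · simp [h2]
      · exact mul_le_mul_of_nonneg_left (hB r hr' h2) w0)
    (Continuous.intervalIntegrable (by fun_prop) _ _)
  rw [intervalIntegral.integral_mul_const, oneD_mass hg hg' h0, Real.norm_eq_abs] at h1
  exact h1.trans (mul_le_of_le_one_left hB0 (η_le_one _))

theorem oneD_tendsto {g g' G : ℝ → ℝ} {r0 : ℝ} (hr0 : 0 < r0)
    (hg : ∀ r, HasDerivAt g (g' r) r) (hg' : Continuous g') (h0 : g 0 = 0)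
    (hpos : ∀ r ∈ Icc 0 r0, 0 < g' r) (hG : ContinuousOn G (Icc 0 r0)) :
    Tendsto (fun δ => ∫ r in (0 : ℝ)..r0, deriv η (g r / δ) / δ * g' r * G r) (𝓝[>] 0)
      (𝓝 (G 0)) := by
  have hgc : Continuous g := continuous_iff_continuousAt.mpr fun r => (hg r).continuousAt
  have hc := η'_cont
  have hmono : StrictMonoOn g (Icc 0 r0) :=
    strictMonoOn_of_deriv_pos (convex_Icc _ _) hgc.continuousOn fun r hr => by
      rw [(hg r).deriv]; exact hpos r (interior_subset hr)
  rw [Metric.tendsto_nhds]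
  intro ε hε
  obtain ⟨ρ, hρ, hρG⟩ := Metric.continuousWithinAt_iff.mp (hG 0 ⟨le_rfl, hr0.le⟩) (ε / 2)
    (half_pos hε)
  set ρ' := min (ρ / 2) r0 with hρ'
  have m1 : ρ' ∈ Icc 0 r0 := ⟨by positivity, min_le_right _ _⟩
  have hgρ : 0 < g ρ' := by
    rw [← h0]
    exact hmono ⟨le_rfl, hr0.le⟩ m1 (by positivity)
  filter_upwards [Ioo_mem_nhdsGT (half_pos hgρ)] with δ hδ
  have big : ∀ r ∈ Icc 0 r0, ρ' ≤ r → 2 < g r / δ := by
    intro r hr h1
    rw [lt_div_iff₀ hδ.1]
    have := hmono.monotoneOn m1 hr h1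
    linarith [hδ.2]
  have e1 : (∫ r in (0 : ℝ)..r0, deriv η (g r / δ) / δ * g' r * G r) - G 0
      = ∫ r in (0 : ℝ)..r0, deriv η (g r / δ) / δ * g' r * (G r - G 0) := by
    have i1 : IntervalIntegrable (fun r => deriv η (g r / δ) / δ * g' r * G r) volume 0 r0 := by
      apply ContinuousOn.intervalIntegrable
      rw [uIcc_of_le hr0.le]
      exact (Continuous.continuousOn (by fun_prop)).mul hG
    have i2 : IntervalIntegrable (fun r => deriv η (g r / δ) / δ * g' r * G 0) volume 0 r0 :=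
      Continuous.intervalIntegrable (by fun_prop) _ _
    simp only [mul_sub]
    rw [intervalIntegral.integral_sub i1 i2, intervalIntegral.integral_mul_const,
      oneD_mass hg hg' h0, η_one (big r0 ⟨hr0.le, le_rfl⟩ m1.2).le, one_mul]
  rw [Real.dist_eq, e1]
  refine lt_of_le_of_lt (oneD_bound hr0 hδ.1 hg hg' h0 hpos (B := ε / 2) ?_ (half_pos hε).le)
    (half_lt_self hε)
  intro r hr hne
  have h2 : r < ρ' := by
    by_contra h3
    exact hne (η'_zero (big r hr (not_lt.mp h3)))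
  have h3 : dist r 0 < ρ := by
    rw [Real.dist_eq, sub_zero, abs_of_nonneg hr.1]
    linarith [min_le_left (ρ / 2) r0]
  exact (hρG hr h3).le

theorem det_complex (L : ℂ →L[ℝ] ℂ) : L.det = (L 1).re * (L I).im - (L 1).im * (L I).re := by
  rw [ContinuousLinearMap.det, ← LinearMap.det_toMatrix basisOneI, Matrix.det_fin_two]
  simp [LinearMap.toMatrix_apply]
  ring

/-- The Jacobian of the collar map. -/
noncomputable def Jac (γ : ℝ → ℂ) (t r : ℝ) : ℝ :=
  |(deriv γ t + r * (I * deriv (deriv γ) t)).re * (I * deriv γ t).im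
    - (deriv γ t + r * (I * deriv (deriv γ) t)).im * (I * deriv γ t).re|

variable {γ : ℝ → ℂ}

theorem Jac_zero (t : ℝ) : Jac γ t 0 = ‖deriv γ t‖ ^ 2 := by
  rw [← normSq_eq_norm_sq, normSq_apply]
  simp only [Jac, ofReal_zero, zero_mul, add_zero, mul_im, I_re, I_im, one_mul, zero_add, mul_re,
    zero_sub, mul_neg, sub_neg_eq_add]
  exact abs_of_nonneg (by nlinarith [mul_self_nonneg (deriv γ t).re, mul_self_nonneg (deriv γ t).im])

theorem JC.continuous_Jac (h : JC γ) : Continuous (fun p : ℝ × ℝ => Jac γ p.1 p.2) := by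
  have h1 := h.cont1
  have h2 := h.cont2
  unfold Jac
  fun_prop

theorem JC.integral_collar (h : JC γ) {r0 : ℝ} (hr0 : 0 < r0) (hR : Reach γ r0) {f : ℂ → ℝ}
    (hf : ContinuousOn (fun p : ℝ × ℝ => f (Col γ p.1 p.2)) (Icc 0 1 ×ˢ Icc 0 r0)) :
    ∫ z in (fun p : ℝ × ℝ => Col γ p.1 p.2) '' (Ico 0 1 ×ˢ Ioo 0 r0), f z
      = ∫ t in (0 : ℝ)..1, ∫ r in (0 : ℝ)..r0, Jac γ t r * f (Col γ t r) := by
  set S : Set ℂ := measurableEquivRealProd ⁻¹' (Ico 0 1 ×ˢ Ioo 0 r0) with hS
  have hSm : MeasurableSet S :=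
    measurableEquivRealProd.measurable (measurableSet_Ico.prod measurableSet_Ioo)
  have himg : (fun p : ℝ × ℝ => Col γ p.1 p.2) '' (Ico 0 1 ×ˢ Ioo 0 r0)
      = (fun w : ℂ => Col γ w.re w.im) '' S := by
    ext z
    constructor
    · rintro ⟨p, hp, rfl⟩
      exact ⟨⟨p.1, p.2⟩, hp, rfl⟩
    · rintro ⟨w, hw, rfl⟩
      exact ⟨(w.re, w.im), hw, rfl⟩
  have hder : ∀ w : ℂ, HasFDerivAt (fun w : ℂ => Col γ w.re w.im)
      (reCLM.smulRight (deriv γ w.re + w.im * (I * deriv (deriv γ) w.re))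
        + imCLM.smulRight (I * deriv γ w.re)) w := by
    intro w
    have a1 := (h.hasDerivAt w.re).hasFDerivAt.comp w reCLM.hasFDerivAt
    have a2 := (h.hasDerivAt1 w.re).hasFDerivAt.comp w reCLM.hasFDerivAt
    have a3 := (ofRealCLM.comp imCLM).hasFDerivAt (x := w)
    have a4 := a1.add (a3.mul (a2.const_mul I))
    refine HasFDerivAt.congr_fderiv (f := fun w : ℂ => Col γ w.re w.im) a4 ?_
    ext v
    simp
    ring
  have hinj : InjOn (fun w : ℂ => Col γ w.re w.im) S := by
    intro w hw w' hw' he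
    have b1 : |w.im| ≤ r0 := (abs_of_pos (a := w.im) hw.2.1).le.trans hw.2.2.le
    have b2 : |w'.im| ≤ r0 := (abs_of_pos (a := w'.im) hw'.2.1).le.trans hw'.2.2.le
    obtain ⟨c1, c2⟩ := hR.P_eq h b1 b2 he
    exact Complex.ext (h.inj hw'.1 hw.1 c1).symm c2
  rw [himg, integral_image_eq_integral_abs_det_fderiv_smul volume hSm
    (fun w _ => (hder w).hasFDerivWithinAt) hinj]
  have e1 : ∀ w : ℂ, |(reCLM.smulRight (deriv γ w.re + w.im * (I * deriv (deriv γ) w.re))
        + imCLM.smulRight (I * deriv γ w.re)).det| • f (Col γ w.re w.im)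
      = (fun p : ℝ × ℝ => Jac γ p.1 p.2 * f (Col γ p.1 p.2)) (measurableEquivRealProd w) := by
    intro w
    rw [det_complex]
    simp [Jac]
  simp only [e1]
  rw [hS, volume_preserving_equiv_real_prod.setIntegral_preimage_emb
    measurableEquivRealProd.measurableEmbedding
    (fun p : ℝ × ℝ => Jac γ p.1 p.2 * f (Col γ p.1 p.2)), Measure.volume_eq_prod, setIntegral_prod]
  · rw [intervalIntegral.integral_of_le zero_le_one, integral_Ico_eq_integral_Ioo,
      integral_Ioc_eq_integral_Ioo]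
    congr 1
    ext t
    rw [intervalIntegral.integral_of_le hr0.le, integral_Ioc_eq_integral_Ioo]
  · rw [← Measure.volume_eq_prod]
    exact ((h.continuous_Jac.continuousOn.mul hf).integrableOn_compact
      (isCompact_Icc.prod isCompact_Icc)).mono_set
      (prod_mono Ico_subset_Icc_self Ioo_subset_Icc_self)

end Pool.Agent.P.MP_7e8329_an
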