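import Mathlib

set_option autoImplicit false

open Set MeasureTheory Filter Topology Complex Metric

namespace Pool.Agent.P.MP_7e8329_an

/-- A regular, twice continuously differentiable simple closed curve of period one. -/
structure JC (γ : ℝ → ℂ) : Prop where
  smooth : ContDiff ℝ 2 γ
  per : Function.Periodic γ 1
  inj : InjOn γ (Ico 0 1)
  reg : ∀ t, deriv γ t ≠ 0

theorem periodic_deriv {f : ℝ → ℂ} (h : Function.Periodic f 1) :
    Function.Periodic (deriv f) 1 := by
  intro t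
  rw [← deriv_comp_add_const]
  congr 1
  ext x
  exact h x

variable {γ : ℝ → ℂ}

theorem JC.cont (h : JC γ) : Continuous γ := h.smooth.continuous

theorem JC.smooth1 (h : JC γ) : ContDiff ℝ 1 (deriv γ) :=
  (contDiff_succ_iff_deriv.mp (show ContDiff ℝ (1 + 1) γ from h.smooth)).2.2

theorem JC.cont1 (h : JC γ) : Continuous (deriv γ) := h.smooth1.continuous

theorem JC.cont2 (h : JC γ) : Continuous (deriv (deriv γ)) :=
  h.smooth1.continuous_deriv le_rfl

theorem JC.hasDerivAt (h : JC γ) (t : ℝ) : HasDerivAt γ (deriv γ t) t :=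
  (h.smooth.differentiable (by simp) t).hasDerivAt

theorem JC.hasDerivAt1 (h : JC γ) (t : ℝ) : HasDerivAt (deriv γ) (deriv (deriv γ) t) t :=
  (h.smooth1.differentiable (by simp) t).hasDerivAt

theorem JC.per1 (h : JC γ) : Function.Periodic (deriv γ) 1 := periodic_deriv h.per

theorem JC.per2 (h : JC γ) : Function.Periodic (deriv (deriv γ)) 1 := periodic_deriv h.per1

theorem per_int {f : ℝ → ℂ} (h : Function.Periodic f 1) (t : ℝ) (k : ℤ) : f (t + k) = f t := by
  simpa using h.int_mul k t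

theorem per_fract {f : ℝ → ℂ} (h : Function.Periodic f 1) (t : ℝ) : f (Int.fract t) = f t := by
  conv_rhs => rw [← Int.fract_add_floor t]
  exact (per_int h _ _).symm

theorem fract_mem (t : ℝ) : Int.fract t ∈ Ico (0 : ℝ) 1 := ⟨Int.fract_nonneg t, Int.fract_lt_one t⟩

theorem JC.eq_iff (h : JC γ) {s t : ℝ} (hst : γ s = γ t) : ∃ k : ℤ, s = t + k := by
  have h1 : Int.fract s = Int.fract t :=
    h.inj (fract_mem s) (fract_mem t) (by rw [per_fract h.per, per_fract h.per, hst])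
  obtain ⟨k, hk⟩ := Int.fract_eq_fract.mp h1
  exact ⟨k, by linarith⟩

theorem JC.isCompact (h : JC γ) : IsCompact (range γ) :=
  h.per.compact_of_continuous one_ne_zero h.cont

theorem JC.range_eq (h : JC γ) : range γ = γ '' Ico 0 1 := by
  apply Subset.antisymm
  · rintro _ ⟨t, rfl⟩
    exact ⟨Int.fract t, fract_mem t, per_fract h.per t⟩
  · exact image_subset_range _ _

theorem exists_bound {f : ℝ → ℂ} (h : Function.Periodic f 1) (hc : Continuous f) :
    ∃ M > 0, ∀ t, ‖f t‖ ≤ M := by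
  obtain ⟨M, hM, h2⟩ := (h.isBounded_of_continuous one_ne_zero hc).exists_pos_norm_le
  exact ⟨M, hM, fun t => h2 _ ⟨t, rfl⟩⟩

theorem exists_lower {f : ℝ → ℂ} (h : Function.Periodic f 1) (hc : Continuous f)
    (h0 : ∀ t, f t ≠ 0) : ∃ m > 0, ∀ t, m ≤ ‖f t‖ := by
  obtain ⟨_, ⟨t0, rfl⟩, h2⟩ := (h.compact_of_continuous one_ne_zero hc).exists_isMinOn
    (range_nonempty f) continuous_norm.continuousOn
  exact ⟨‖f t0‖, norm_pos_iff.mpr (h0 t0), fun t => h2 ⟨t, rfl⟩⟩

/-- The collar map. -/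
noncomputable def Col (γ : ℝ → ℂ) (t r : ℝ) : ℂ := γ t + r * (I * deriv γ t)

@[simp] theorem P_zero (t : ℝ) : Col γ t 0 = γ t := by simp [Col]

theorem JC.P_int (h : JC γ) (t r : ℝ) (k : ℤ) : Col γ (t + k) r = Col γ t r := by
  simp only [Col, per_int h.per, per_int h.per1]

theorem JC.P_fract (h : JC γ) (t r : ℝ) : Col γ (Int.fract t) r = Col γ t r := by
  simp only [Col, per_fract h.per, per_fract h.per1]

theorem JC.continuous_P (h : JC γ) : Continuous (fun p : ℝ × ℝ => Col γ p.1 p.2) := by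
  have h1 := h.cont
  have h2 := h.cont1
  unfold Col
  fun_prop

theorem norm_P_sub (t r : ℝ) : ‖Col γ t r - γ t‖ = |r| * ‖deriv γ t‖ := by
  simp [Col]

/-- The mean of the derivative along a chord. -/
noncomputable def D (γ : ℝ → ℂ) (t u : ℝ) : ℂ := ∫ τ in (0 : ℝ)..1, deriv γ (t + τ * u)

theorem JC.chord (h : JC γ) (t u : ℝ) : γ (t + u) - γ t = u * D γ t u := by
  have h1 : ∀ τ ∈ uIcc (0 : ℝ) 1,
      HasDerivAt (fun τ => γ (t + τ * u)) (u * deriv γ (t + τ * u)) τ := by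
    intro τ _
    have h2 : HasDerivAt (fun τ => t + τ * u) u τ := by
      simpa using ((hasDerivAt_id τ).mul_const u).const_add t
    exact (h.hasDerivAt (t + τ * u)).scomp τ h2
  have hc := h.cont1
  have h4 := intervalIntegral.integral_eq_sub_of_hasDerivAt h1
    (Continuous.intervalIntegrable (by fun_prop) _ _)
  rw [intervalIntegral.integral_const_mul] at h4
  simp only [one_mul, zero_mul, add_zero] at h4
  rw [← h4]
  rfl

theorem JC.continuous_D (h : JC γ) : Continuous (fun p : ℝ × ℝ => D γ p.1 p.2) := by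
  have hc := h.cont1
  unfold D
  apply intervalIntegral.continuous_parametric_intervalIntegral_of_continuous'
  unfold Function.uncurry
  fun_prop

theorem JC.D_close (h : JC γ) {M : ℝ} (hM : ∀ t, ‖deriv (deriv γ) t‖ ≤ M) (t u : ℝ) :
    ‖D γ t u - deriv γ t‖ ≤ M * |u| := by
  have hc := h.cont1
  have h1 : D γ t u - deriv γ t = ∫ τ in (0 : ℝ)..1, (deriv γ (t + τ * u) - deriv γ t) := by
    rw [intervalIntegral.integral_sub (Continuous.intervalIntegrable (by fun_prop) _ _)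
      (Continuous.intervalIntegrable (by fun_prop) _ _)]
    simp [D]
  rw [h1]
  have hM0 : 0 ≤ M := (norm_nonneg _).trans (hM 0)
  have h2 := intervalIntegral.norm_integral_le_of_norm_le_const (a := 0) (b := 1) (C := M * |u|)
    (f := fun τ => deriv γ (t + τ * u) - deriv γ t) (by
      intro τ hτ
      rw [uIoc_of_le zero_le_one] at hτ
      have h3 := Convex.norm_image_sub_le_of_norm_deriv_le (f := deriv γ) (s := univ) (C := M)
        (fun x _ => (h.hasDerivAt1 x).differentiableAt) (fun x _ => hM x) convex_univ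
        (mem_univ t) (mem_univ (t + τ * u))
      refine h3.trans ?_
      have h4 : ‖t + τ * u - t‖ = τ * |u| := by
        rw [add_sub_cancel_left, Real.norm_eq_abs, abs_mul, abs_of_pos hτ.1]
      rw [h4]
      have := abs_nonneg u
      apply mul_le_mul_of_nonneg_left _ hM0
      nlinarith [hτ.2])
  simpa using h2

theorem JC.D_lower (h : JC γ) : ∃ c > 0, ∀ t u, |u| ≤ 1 / 2 → c ≤ ‖D γ t u‖ := by
  have hK : IsCompact (Icc (0 : ℝ) 1 ×ˢ Icc (-(1 / 2) : ℝ) (1 / 2)) := isCompact_Icc.prod isCompact_Icc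
  obtain ⟨p, hp, hmin⟩ := hK.exists_isMinOn ⟨(0, 0), by simp⟩
    (f := fun p : ℝ × ℝ => ‖D γ p.1 p.2‖) h.continuous_D.norm.continuousOn
  have hne : ∀ t u, |u| ≤ 1 / 2 → D γ t u ≠ 0 := by
    intro t u hu h0
    by_cases hu0 : u = 0
    · subst hu0
      simp only [D, mul_zero, add_zero, intervalIntegral.integral_const, sub_zero, one_smul] at h0
      exact h.reg t h0
    · have h1 := h.chord t u
      rw [h0, mul_zero, sub_eq_zero] at h1
      obtain ⟨k, hk⟩ := h.eq_iff h1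
      have h2 : u = k := by linarith
      rw [h2] at hu hu0
      have h3 : |k| < 1 := by
        have : |(k : ℝ)| < 1 := by linarith
        exact_mod_cast this
      have h4 : k = 0 := Int.abs_lt_one_iff.mp h3
      exact hu0 (by simp [h4])
  refine ⟨‖D γ p.1 p.2‖, norm_pos_iff.mpr (hne _ _ (abs_le.mpr hp.2)), fun t u hu => ?_⟩
  have h5 : D γ (Int.fract t) u = D γ t u := by
    unfold D
    congr 1
    ext τ
    have : t + τ * u = (Int.fract t + τ * u) + (⌊t⌋ : ℤ) := by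
      rw [Int.fract]; ring
    rw [this, per_int h.per1]
  rw [← h5]
  exact hmin (show (Int.fract t, u) ∈ _ from
    ⟨Ico_subset_Icc_self (fract_mem t), abs_le.mp hu⟩)

/-- Tangent discs: the nearest point of the curve to `Col γ t r` is `γ t`. -/
theorem JC.exists_reach (h : JC γ) : ∃ r0 > 0, ∀ s t r, |r| ≤ r0 → γ s ≠ γ t →
    |r| * ‖deriv γ t‖ < ‖γ s - Col γ t r‖ := by
  obtain ⟨c, hc, hD⟩ := h.D_lower
  obtain ⟨M1, hM1, b1⟩ := exists_bound h.per1 h.cont1
  obtain ⟨M2, hM2, b2⟩ := exists_bound h.per2 h.cont2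
  refine ⟨c ^ 2 / (4 * M1 * M2), by positivity, fun s t r hr hst => ?_⟩
  set u := s - t - round (s - t) with hu
  have hu1 : |u| ≤ 1 / 2 := abs_sub_round (s - t)
  have hs : γ s = γ (t + u) := by
    have : s = (t + u) + (round (s - t) : ℤ) := by rw [hu]; ring
    rw [this, per_int h.per]
  have hu0 : u ≠ 0 := by
    intro h0
    rw [hs, h0, add_zero] at hst
    exact hst rfl
  set n : ℂ := r * (I * deriv γ t) with hn
  have e1 : γ s - Col γ t r = u * D γ t u - n := by
    rw [hs, ← h.chord, Col]; ring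
  have e2 : ‖n‖ = |r| * ‖deriv γ t‖ := by simp [hn]
  rw [e1, ← e2]
  refine lt_of_pow_lt_pow_left₀ 2 (norm_nonneg _) ?_
  rw [norm_sub_sq_real]
  have e3 : inner ℝ (↑u * D γ t u) n = u * inner ℝ (D γ t u - deriv γ t) n := by
    simp only [Complex.inner, hn]
    simp
    ring
  have e4 : |inner ℝ (D γ t u - deriv γ t) n| ≤ (M2 * |u|) * (|r| * M1) := by
    refine (abs_real_inner_le_norm _ _).trans ?_
    rw [e2]
    exact mul_le_mul (h.D_close b2 t u) (mul_le_mul_of_nonneg_left (b1 t) (abs_nonneg r))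
      (by positivity) (by positivity)
  have e5 : (|u| * c) ^ 2 ≤ ‖(u : ℂ) * D γ t u‖ ^ 2 := by
    rw [norm_mul, Complex.norm_real, Real.norm_eq_abs]
    gcongr
    exact hD t u hu1
  have hu2 : 0 < |u| := abs_pos.mpr hu0
  have e6 : u * inner ℝ (D γ t u - deriv γ t) n ≤ |u| * ((M2 * |u|) * (|r| * M1)) := by
    refine (le_abs_self _).trans ?_
    rw [abs_mul]
    exact mul_le_mul_of_nonneg_left e4 hu2.le
  have e7 : |r| * (4 * M1 * M2) ≤ c ^ 2 := by
    rwa [le_div_iff₀ (by positivity)] at hr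
  rw [e3]
  have e8 : 0 < |u| ^ 2 * c ^ 2 := by positivity
  have e9 : |u| ^ 2 * (|r| * (4 * M1 * M2)) ≤ |u| ^ 2 * c ^ 2 :=
    mul_le_mul_of_nonneg_left e7 (by positivity)
  nlinarith

/-- The reach condition. -/
def Reach (γ : ℝ → ℂ) (r0 : ℝ) : Prop :=
  ∀ s t r, |r| ≤ r0 → γ s ≠ γ t → |r| * ‖deriv γ t‖ < ‖γ s - Col γ t r‖

theorem Reach.mono {r0 r1 : ℝ} (h : Reach γ r0) (h1 : r1 ≤ r0) : Reach γ r1 :=
  fun s t r hr hst => h s t r (hr.trans h1) hst

theorem Reach.le {r0 : ℝ} (h : Reach γ r0) (s t r : ℝ) (hr : |r| ≤ r0) :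
    |r| * ‖deriv γ t‖ ≤ ‖γ s - Col γ t r‖ := by
  by_cases hst : γ s = γ t
  · rw [hst, norm_sub_rev, norm_P_sub]
  · exact (h s t r hr hst).le

theorem Reach.P_eq (hγ : JC γ) {r0 : ℝ} (h : Reach γ r0) {s t r r' : ℝ} (hr : |r| ≤ r0)
    (hr' : |r'| ≤ r0) (he : Col γ t r = Col γ s r') : γ s = γ t ∧ r = r' := by
  have h1 : γ s = γ t := by
    by_contra hst
    have a1 := h s t r hr hst
    have a2 := h t s r' hr' (Ne.symm hst)
    rw [he, norm_sub_rev, norm_P_sub] at a1
    rw [← he, norm_sub_rev, norm_P_sub] at a2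
    linarith
  refine ⟨h1, ?_⟩
  obtain ⟨k, rfl⟩ := hγ.eq_iff h1
  rw [hγ.P_int] at he
  simp only [Col, add_right_inj] at he
  have h2 := mul_right_cancel₀ (mul_ne_zero I_ne_zero (hγ.reg t)) he
  exact_mod_cast h2

theorem Reach.P_notMem (hγ : JC γ) {r0 : ℝ} (h : Reach γ r0) {t r : ℝ} (hr : |r| ≤ r0)
    (h0 : r ≠ 0) : Col γ t r ∉ range γ := by
  rintro ⟨s, hs⟩
  have h1 : Col γ t r = Col γ s 0 := by simp [hs]
  exact h0 (h.P_eq hγ hr (by simpa using (abs_nonneg r).trans hr) h1).2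

theorem Reach.ball_disjoint {r0 : ℝ} (h : Reach γ r0) {t r : ℝ} (hr : |r| ≤ r0) :
    Disjoint (ball (Col γ t r) (|r| * ‖deriv γ t‖)) (range γ) := by
  rw [Set.disjoint_left]
  rintro _ hz ⟨s, rfl⟩
  rw [mem_ball, dist_eq_norm] at hz
  exact absurd (h.le s t r hr) (not_le.mpr hz)

/-- Points close to the curve lie on a short normal segment. -/
theorem JC.exists_foot (h : JC γ) {r0 : ℝ} (hr0 : 0 < r0) :
    ∃ ε > 0, ∀ z s, ‖z - γ s‖ < ε → ∃ t ∈ Ico (0 : ℝ) 1, ∃ r, |r| < r0 ∧ z = Col γ t r := by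
  obtain ⟨m, hm, b⟩ := exists_lower h.per1 h.cont1 h.reg
  refine ⟨r0 * m, by positivity, fun z s hz => ?_⟩
  obtain ⟨_, ⟨t, rfl⟩, hmin⟩ := h.isCompact.exists_isMinOn (range_nonempty γ)
    (f := fun w => ‖z - w‖ ^ 2) (by fun_prop)
  have hloc : IsLocalMin (fun τ => ‖z - γ τ‖ ^ 2) t :=
    Eventually.of_forall fun τ => hmin ⟨τ, rfl⟩
  have hd : HasDerivAt (fun τ => ‖z - γ τ‖ ^ 2) (2 * inner ℝ (z - γ t) (-deriv γ t)) t :=
    ((h.hasDerivAt t).const_sub z).norm_sq
  have h0 := hloc.hasDerivAt_eq_zero hd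
  have hreg := h.reg t
  set w := (z - γ t) / (I * deriv γ t) with hw
  have hzw : z - γ t = w * (I * deriv γ t) := by
    rw [hw, div_mul_cancel₀ _ (mul_ne_zero I_ne_zero hreg)]
  have hwim : w.im = 0 := by
    rw [hzw] at h0
    simp only [Complex.inner] at h0
    simp at h0
    have hn : 0 < (deriv γ t).re ^ 2 + (deriv γ t).im ^ 2 := by
      have := Complex.normSq_pos.mpr hreg
      rw [Complex.normSq_apply] at this
      nlinarith
    have h2 : w.im * ((deriv γ t).re ^ 2 + (deriv γ t).im ^ 2) = 0 := by linarith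
    exact (mul_eq_zero.mp h2).resolve_right hn.ne'
  have hwre : w = (w.re : ℂ) := by
    apply Complex.ext <;> simp [hwim]
  have hz2 : z = Col γ t w.re := by
    rw [Col, ← hwre, ← hzw]; ring
  refine ⟨Int.fract t, fract_mem t, w.re, ?_, by rw [h.P_fract]; exact hz2⟩
  have h3 : ‖z - γ t‖ ≤ ‖z - γ s‖ := by
    have := hmin (show γ s ∈ range γ from ⟨s, rfl⟩)
    exact le_of_sq_le_sq this (norm_nonneg _)
  have h4 : ‖z - γ t‖ = |w.re| * ‖deriv γ t‖ := by
    conv_lhs => rw [hz2]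
    exact norm_P_sub t w.re
  have h5 : |w.re| * m ≤ |w.re| * ‖deriv γ t‖ := mul_le_mul_of_nonneg_left (b t) (abs_nonneg _)
  have h6 : |w.re| * m < r0 * m := by linarith
  exact lt_of_mul_lt_mul_right h6 hm.le

/-- The reversed curve. -/
theorem JC.rev (h : JC γ) : JC (fun t => γ (-t)) where
  smooth := h.smooth.comp contDiff_neg
  per := fun t => by
    have := h.per (-(t + 1))
    simp only [neg_add_rev] at this ⊢
    rw [← this]; congr 1; ring
  inj := by
    intro s hs t ht hst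
    obtain ⟨k, hk⟩ := h.eq_iff hst
    have h1 : |(k : ℝ)| < 1 := by
      rw [abs_lt]; constructor <;> linarith [hs.1, hs.2, ht.1, ht.2]
    have h2 : |k| < 1 := by exact_mod_cast h1
    have h3 : k = 0 := Int.abs_lt_one_iff.mp h2
    simp [h3] at hk
    exact hk
  reg := fun t => by
    rw [deriv_comp_neg]
    exact neg_ne_zero.mpr (h.reg _)

theorem range_rev : range (fun t => γ (-t)) = range γ := by
  apply Subset.antisymm
  · rintro _ ⟨t, rfl⟩; exact ⟨-t, rfl⟩
  · rintro _ ⟨t, rfl⟩; exact ⟨-t, by simp⟩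

theorem P_rev (t r : ℝ) : Col (fun t => γ (-t)) t r = Col γ (-t) (-r) := by
  simp only [Col, deriv_comp_neg]
  push_cast
  ring

end Pool.Agent.P.MP_7e8329_an
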