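import Pool.Agent.P.MP_7e8329_an.Collar

set_option autoImplicit false

open Set MeasureTheory Filter Topology Complex Metric InnerProductSpace

namespace Pool.Agent.P.MP_7e8329_an

variable {U Γ' : Set ℂ} {γ : ℝ → ℂ} {φ : ℂ → ℝ} {r0 : ℝ}

theorem Side.mem_closure (h : Side U γ φ Γ' r0) (t : ℝ) {r : ℝ} (hr : r ∈ Icc 0 r0) :
    Col γ t r ∈ closure U := by
  rcases hr.1.lt_or_eq with h1 | h1
  · exact subset_closure (h.left t r h1 hr.2)
  · subst h1
    have hc : Continuous (fun r => Col γ t r) :=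
      h.jc.continuous_P.comp (continuous_const.prodMk continuous_id)
    refine mem_closure_of_tendsto (f := fun r => Col γ t r) (b := 𝓝[>] 0)
      (hc.continuousAt.mono_left nhdsWithin_le_nhds) ?_
    filter_upwards [Ioo_mem_nhdsGT h.r0_pos] with r hr
    exact h.left t r hr.1 hr.2.le

theorem Side.curve_mem (h : Side U γ φ Γ' r0) (t : ℝ) : γ t ∈ closure U := by
  simpa using h.mem_closure t (r := 0) ⟨le_rfl, h.r0_pos.le⟩

theorem Side.small_in_collar (h : Side U γ φ Γ' r0) (hb : Bornology.IsBounded U)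
    (hφ : Continuous φ) (hpos : ∀ z ∈ U, 0 < φ z) : ∃ μ > 0, ∀ z ∈ U, φ z < μ →
      z ∈ (fun p : ℝ × ℝ => Col γ p.1 p.2) '' (Ico 0 1 ×ˢ Ioo 0 r0) := by
  obtain ⟨ε, hε, h1⟩ := h.jc.exists_foot h.r0_pos
  have hK : IsCompact (closure U \ thickening ε (range γ)) :=
    hb.isCompact_closure.diff isOpen_thickening
  obtain ⟨μ, hμ, h2⟩ := hK.exists_forall_le' hφ.continuousOn (a := 0) (fun z hz =>
    h.pos z hz.1 fun h3 => hz.2 (self_subset_thickening hε _ h3))
  refine ⟨μ, hμ, fun z hz hlt => ?_⟩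
  have h3 : z ∈ thickening ε (range γ) := by
    by_contra h4
    exact absurd (h2 z ⟨subset_closure hz, h4⟩) (not_le.mpr hlt)
  obtain ⟨_, ⟨s, rfl⟩, h4⟩ := mem_thickening_iff.mp h3
  rw [dist_eq_norm] at h4
  obtain ⟨t, ht, r, hr, rfl⟩ := h1 z s h4
  rcases lt_trichotomy r 0 with h5 | h5 | h5
  · exfalso
    have := h.right t (-r) (by linarith) (by rw [abs_of_neg h5] at hr; exact hr.le)
    rw [neg_neg] at this
    exact this (subset_closure hz)
  · exfalso
    subst h5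
    have := hpos _ hz
    rw [P_zero, h.zero] at this
    exact lt_irrefl _ this
  · exact ⟨(t, r), ⟨ht, h5, by rwa [abs_of_pos h5] at hr⟩, rfl⟩

theorem Side.collar_limit (h : Side U γ φ Γ' r0) (ho : IsOpen U) (hb : Bornology.IsBounded U)
    (hφ : ContDiff ℝ 2 φ) (hpos : ∀ z ∈ U, 0 < φ z) {H : ℂ → ℝ}
    (hH : ContinuousOn H (closure U)) :
    Tendsto (fun δ => ∫ z in U, deriv η (φ z / δ) / δ * H z) (𝓝[>] 0)
      (𝓝 (∫ t in (0 : ℝ)..1,
        ‖deriv γ t‖ ^ 2 * H (γ t) / fderiv ℝ φ (γ t) (I * deriv γ t))) := by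
  have hr0 := h.r0_pos
  have hφc := hφ.continuous
  have hη := η'_cont
  have hP := h.jc.continuous_P
  have hJ := h.jc.continuous_Jac
  have hγ1 := h.jc.cont1
  obtain ⟨μ, hμ, hsmall⟩ := h.small_in_collar hb hφc hpos
  set g' : ℝ → ℝ → ℝ := fun t r => fderiv ℝ φ (Col γ t r) (I * deriv γ t) with hg'
  have hg'c : Continuous (fun p : ℝ × ℝ => g' p.1 p.2) :=
    ((hφ.continuous_fderiv (by simp)).comp hP).clm_apply (by fun_prop)
  have hgd : ∀ t r, HasDerivAt (fun r => φ (Col γ t r)) (g' t r) r := by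
    intro t r
    have a1 : HasDerivAt (fun r : ℝ => Col γ t r) (I * deriv γ t) r := by
      have := ((ofRealCLM.hasDerivAt (x := r)).mul_const (I * deriv γ t)).const_add (γ t)
      simpa [Col] using this
    exact (hφ.differentiable (by simp) _).hasFDerivAt.comp_hasDerivAt r a1
  set c : ℝ → ℝ := fun r => max 0 (min r r0) with hc
  have hcc : Continuous c := by fun_prop
  have hcm : ∀ r, c r ∈ Icc 0 r0 := fun r => ⟨le_max_left _ _, max_le hr0.le (min_le_right _ _)⟩
  have hce : ∀ r ∈ Icc 0 r0, c r = r := fun r hr => by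
    simp only [hc, min_eq_left hr.2, max_eq_right hr.1]
  set G : ℝ → ℝ → ℝ := fun t r => Jac γ t (c r) * H (Col γ t (c r)) / g' t (c r) with hG
  have hcl : Continuous (fun p : ℝ × ℝ => (p.1, c p.2)) := by fun_prop
  have hGc : Continuous (fun p : ℝ × ℝ => G p.1 p.2) := by
    refine ((hJ.comp hcl).mul ?_).div (hg'c.comp hcl) fun p => (h.der p.1 _ (hcm p.2)).ne'
    exact hH.comp_continuous (hP.comp hcl) fun p => h.mem_closure p.1 (hcm p.2)
  obtain ⟨B, hB⟩ := (isCompact_Icc (a := (0 : ℝ)) (b := 1)).prod (isCompact_Icc (a := 0) (b := r0))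
    |>.exists_bound_of_continuousOn hGc.continuousOn
  have hB0 : 0 ≤ B := (norm_nonneg _).trans (hB (0, 0) ⟨⟨le_rfl, zero_le_one⟩, le_rfl, hr0.le⟩)
  have key : Tendsto (fun δ => ∫ t in (0 : ℝ)..1, ∫ r in (0 : ℝ)..r0,
      deriv η (φ (Col γ t r) / δ) / δ * g' t r * G t r) (𝓝[>] 0)
      (𝓝 (∫ t in (0 : ℝ)..1, G t 0)) := by
    refine intervalIntegral.tendsto_integral_filter_of_dominated_convergence (fun _ => B) ?_ ?_
      intervalIntegrable_const ?_
    · refine Eventually.of_forall fun δ => Continuous.aestronglyMeasurable ?_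
      apply intervalIntegral.continuous_parametric_intervalIntegral_of_continuous'
      exact (((hη.comp ((hφc.comp hP).div_const δ)).div_const δ).mul hg'c).mul hGc
    · filter_upwards [self_mem_nhdsWithin] with δ hδ
      refine Eventually.of_forall fun t ht => ?_
      rw [uIoc_of_le zero_le_one] at ht
      exact oneD_bound hr0 hδ (hgd t) (hg'c.comp (continuous_const.prodMk continuous_id))
        (by simpa using h.zero t) (h.der t)
        (fun r hr _ => hB (t, r) ⟨Ioc_subset_Icc_self ht, hr⟩) hB0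
    · refine Eventually.of_forall fun t _ => ?_
      exact oneD_tendsto hr0 (hgd t) (hg'c.comp (continuous_const.prodMk continuous_id))
        (by simpa using h.zero t) (h.der t)
        (hGc.comp (continuous_const.prodMk continuous_id)).continuousOn
  have e0 : ∀ t, G t 0 = ‖deriv γ t‖ ^ 2 * H (γ t) / fderiv ℝ φ (γ t) (I * deriv γ t) := by
    intro t
    simp only [hG, hg', hce 0 ⟨le_rfl, hr0.le⟩, Jac_zero, P_zero]
  simp only [e0] at key
  refine key.congr' ?_
  filter_upwards [Ioo_mem_nhdsGT (show 0 < μ / 3 by positivity)] with δ hδ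
  rw [setIntegral_eq_of_subset_of_forall_sdiff_eq_zero ho.measurableSet
    (s := (fun p : ℝ × ℝ => Col γ p.1 p.2) '' (Ico 0 1 ×ˢ Ioo 0 r0))]
  · rw [h.jc.integral_collar hr0 h.reach]
    · congr 1
      ext t
      refine intervalIntegral.integral_congr fun r hr => ?_
      rw [uIcc_of_le hr0.le] at hr
      have := (h.der t r hr).ne'
      simp only [hG, hce r hr, hg']
      field_simp
    · refine (Continuous.continuousOn ((hη.comp ((hφc.comp hP).div_const δ)).div_const δ)).mul ?_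
      exact hH.comp hP.continuousOn fun p hp => h.mem_closure p.1 hp.2
  · rintro _ ⟨p, hp, rfl⟩
    exact h.left _ _ hp.2.1 hp.2.2.le
  · intro z hz
    have h1 : μ ≤ φ z := by
      by_contra h2
      exact hz.2 (hsmall z hz.1 (not_le.mp h2))
    rw [η'_zero, zero_div, zero_mul]
    rw [lt_div_iff₀ hδ.1]
    linarith [hδ.2, hδ.1]

/-- Twice the Wirtinger derivative with respect to the conjugate variable. -/
noncomputable def dbar (Y : ℂ → ℂ) (z : ℂ) : ℂ := fderiv ℝ Y z 1 + I * fderiv ℝ Y z I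

theorem integral_fderiv_zero {Z : ℂ → ℂ} (hZ : ContDiff ℝ 1 Z) (hs : HasCompactSupport Z) (v : ℂ) :
    Integrable (fun z => fderiv ℝ Z z v) ∧ ∫ z, fderiv ℝ Z z v = 0 := by
  have h1 : Integrable (fun z => fderiv ℝ Z z v) :=
    ((hZ.continuous_fderiv (by simp)).clm_apply continuous_const).integrable_of_hasCompactSupport
      (hs.fderiv_apply ℝ v)
  refine ⟨h1, ?_⟩
  have := integral_mul_fderiv_eq_neg_fderiv_mul_of_integrable (μ := volume)
    (f := fun _ : ℂ => (1 : ℂ)) (g := Z) (v := v) (by simp) (by simpa using h1)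
    (by simpa using hZ.continuous.integrable_of_hasCompactSupport hs)
    (fun _ _ => differentiableAt_const _) (fun x _ => hZ.differentiable (by simp) x)
  simpa using this

theorem integral_dbar_zero {Z : ℂ → ℂ} (hZ : ContDiff ℝ 1 Z) (hs : HasCompactSupport Z) :
    Integrable (fun z => (dbar Z z).re) ∧ ∫ z, (dbar Z z).re = 0 := by
  obtain ⟨a1, a2⟩ := integral_fderiv_zero hZ hs 1
  obtain ⟨b1, b2⟩ := integral_fderiv_zero hZ hs I
  have c1 : Integrable (dbar Z) := a1.add (b1.const_mul I)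
  refine ⟨c1.re, ?_⟩
  have c2 : ∫ z, dbar Z z = 0 := by
    unfold dbar
    rw [integral_add a1 (b1.const_mul I), integral_const_mul, a2, b2]
    simp
  have := integral_re c1
  rw [c2] at this
  simpa using this

theorem dbar_mul {f g : ℂ → ℂ} {z : ℂ} (hf : DifferentiableAt ℝ f z) (hg : DifferentiableAt ℝ g z) :
    dbar (fun w => f w * g w) z = dbar f z * g z + f z * dbar g z := by
  unfold dbar
  rw [fderiv_fun_mul hf hg]
  simp
  ring

theorem dbar_real {u : ℂ → ℝ} {z : ℂ} (hu : DifferentiableAt ℝ u z) :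
    dbar (fun w => (u w : ℂ)) z = (starRingEnd ℂ) (Fc u z) := by
  unfold dbar
  have : fderiv ℝ (fun w => (u w : ℂ)) z = ofRealCLM.comp (fderiv ℝ u z) :=
    (ofRealCLM.hasFDerivAt.comp z hu.hasFDerivAt).fderiv
  rw [this]
  simp [Fc]

theorem Fc_comp {u : ℂ → ℝ} {z : ℂ} (hu : DifferentiableAt ℝ u z) {k : ℝ → ℝ} {k' : ℝ}
    (hk : HasDerivAt k k' (u z)) : Fc (fun w => k (u w)) z = k' * Fc u z := by
  have := (hk.comp_hasFDerivAt z hu.hasFDerivAt).fderiv
  unfold Fc
  rw [show (fun w => k (u w)) = k ∘ u from rfl, this]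
  simp
  ring

theorem dbar_holo {f : ℂ → ℂ} {f' z : ℂ} (hf : HasDerivAt f f' z) : dbar f z = 0 := by
  unfold dbar
  rw [fderiv_of_hasDerivAt hf, fderiv_of_hasDerivAt hf]
  linear_combination f' * I_mul_I

theorem JC.tangential (h : JC γ) {ψ : ℂ → ℝ} (hψ : ContDiff ℝ 2 ψ) {c : ℝ} (hc : ∀ t, ψ (γ t) = c)
    (t : ℝ) : (Fc ψ (γ t) * deriv γ t).re = 0 := by
  rw [← fderiv_eq_re]
  have h1 := (hψ.differentiable (by simp) (γ t)).hasFDerivAt.comp_hasDerivAt t (h.hasDerivAt t)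
  have h2 : ψ ∘ γ = fun _ => c := funext hc
  rw [h2] at h1
  exact h1.unique (hasDerivAt_const t c)

theorem boundary_identity {F Y d : ℂ} (h0 : (F * d).re = 0) (h1 : (F * (I * d)).re ≠ 0) :
    ‖d‖ ^ 2 * (Y * (starRingEnd ℂ) F).re / (F * (I * d)).re = -(Y * d).im := by
  rw [div_eq_iff h1, ← normSq_eq_norm_sq, normSq_apply]
  simp at h0 ⊢
  linear_combination (Y.re * d.re - Y.im * d.im) * h0

/-- The normalised geometric situation. -/
structure Ann (U : Set ℂ) (γ₁ γ₂ : ℝ → ℂ) (ψ : ℂ → ℝ) (c₁ c₂ r₁ r₂ : ℝ) : Prop where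
  ho : IsOpen U
  hconn : IsConnected U
  hb : Bornology.IsBounded U
  hf : frontier U = range γ₁ ∪ range γ₂
  disj : Disjoint (range γ₁) (range γ₂)
  smooth : ContDiff ℝ 2 ψ
  harm : HarmonicOnNhd ψ U
  lt : c₁ < c₂
  lower : ∀ z ∈ U, c₁ < ψ z
  upper : ∀ z ∈ U, ψ z < c₂
  s₁ : Side U γ₁ (fun z => ψ z - c₁) (range γ₂) r₁
  s₂ : Side U γ₂ (fun z => c₂ - ψ z) (range γ₁) r₂

variable {γ₁ γ₂ : ℝ → ℂ} {ψ : ℂ → ℝ} {c₁ c₂ r₁ r₂ : ℝ}

theorem Ann.val₁ (A : Ann U γ₁ γ₂ ψ c₁ c₂ r₁ r₂) (t : ℝ) : ψ (γ₁ t) = c₁ :=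
  sub_eq_zero.mp (A.s₁.zero t)

theorem Ann.val₂ (A : Ann U γ₁ γ₂ ψ c₁ c₂ r₁ r₂) (t : ℝ) : ψ (γ₂ t) = c₂ :=
  (sub_eq_zero.mp (A.s₂.zero t)).symm

theorem Ann.nor₁ (A : Ann U γ₁ γ₂ ψ c₁ c₂ r₁ r₂) (t : ℝ) :
    0 < (Fc ψ (γ₁ t) * (I * deriv γ₁ t)).re := by
  have := A.s₁.der t 0 ⟨le_rfl, A.s₁.r0_pos.le⟩
  rwa [P_zero, fderiv_sub_const, fderiv_eq_re] at this

theorem Ann.nor₂ (A : Ann U γ₁ γ₂ ψ c₁ c₂ r₁ r₂) (t : ℝ) :
    (Fc ψ (γ₂ t) * (I * deriv γ₂ t)).re < 0 := by
  have := A.s₂.der t 0 ⟨le_rfl, A.s₂.r0_pos.le⟩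
  rw [P_zero, fderiv_const_sub, neg_apply, fderiv_eq_re] at this
  linarith

/-- The flux of a covector field through a curve. -/
noncomputable def flux (Y : ℂ → ℂ) (γ : ℝ → ℂ) : ℝ :=
  ∫ t in (0 : ℝ)..1, (Y (γ t) * deriv γ t).im

theorem Ann.green (A : Ann U γ₁ γ₂ ψ c₁ c₂ r₁ r₂) {Y : ℂ → ℂ} (hYc : ContinuousOn Y (closure U))
    (hYd : ∀ z ∈ U, ContDiffAt ℝ 1 Y z) {h : ℂ → ℝ} (hint : IntegrableOn h U)
    (hle : ∀ z ∈ U, h z ≤ (dbar Y z).re) : ∫ z in U, h z ≤ flux Y γ₁ + flux Y γ₂ := by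
  have hψc := A.smooth.continuous
  have hψ1 : ContDiff ℝ 1 ψ := A.smooth.of_le (by norm_num)
  have hFc := (contDiff_Fc A.smooth).continuous
  have hηc := η_contDiff.continuous
  have hη' := η'_cont
  set H : ℂ → ℝ := fun z => (Y z * (starRingEnd ℂ) (Fc ψ z)).re with hH
  have hHc : ContinuousOn H (closure U) :=
    continuous_re.comp_continuousOn (hYc.mul (continuous_conj.comp hFc).continuousOn)
  have l1 := A.s₁.collar_limit A.ho A.hb (A.smooth.sub contDiff_const)
    (fun z hz => sub_pos.mpr (A.lower z hz)) hHc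
  have l2 := A.s₂.collar_limit A.ho A.hb (contDiff_const.sub A.smooth)
    (fun z hz => sub_pos.mpr (A.upper z hz)) hHc
  have e1 : (∫ t in (0 : ℝ)..1, ‖deriv γ₁ t‖ ^ 2 * H (γ₁ t) /
      fderiv ℝ (fun z => ψ z - c₁) (γ₁ t) (I * deriv γ₁ t)) = -flux Y γ₁ := by
    rw [flux, ← intervalIntegral.integral_neg]
    congr 1
    ext t
    rw [fderiv_sub_const, fderiv_eq_re]
    exact boundary_identity (A.s₁.jc.tangential A.smooth A.val₁ t) (A.nor₁ t).ne'
  have e2 : (∫ t in (0 : ℝ)..1, ‖deriv γ₂ t‖ ^ 2 * H (γ₂ t) /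
      fderiv ℝ (fun z => c₂ - ψ z) (γ₂ t) (I * deriv γ₂ t)) = flux Y γ₂ := by
    rw [flux]
    congr 1
    ext t
    rw [fderiv_const_sub, neg_apply, fderiv_eq_re, div_neg]
    rw [boundary_identity (A.s₂.jc.tangential A.smooth A.val₂ t) (A.nor₂ t).ne, neg_neg]
  rw [e1] at l1
  rw [e2] at l2
  set χ : ℝ → ℂ → ℝ := fun δ z => η ((ψ z - c₁) / δ) + η ((c₂ - ψ z) / δ) - 1 with hχ
  have hχb : ∀ δ z, |χ δ z| ≤ 1 := by
    intro δ z
    rw [abs_le]
    constructor <;>
      linarith [η_nonneg ((ψ z - c₁) / δ), η_nonneg ((c₂ - ψ z) / δ), η_le_one ((ψ z - c₁) / δ),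
        η_le_one ((c₂ - ψ z) / δ)]
  have hχc : ∀ δ, Continuous (χ δ) := fun δ => by fun_prop
  have l3 : Tendsto (fun δ => ∫ z in U, χ δ z * h z) (𝓝[>] 0) (𝓝 (∫ z in U, h z)) := by
    refine tendsto_integral_filter_of_dominated_convergence (fun z => ‖h z‖) ?_ ?_ hint.norm ?_
    · exact Eventually.of_forall fun δ =>
        (hχc δ).aestronglyMeasurable.mul hint.aestronglyMeasurable
    · refine Eventually.of_forall fun δ => Eventually.of_forall fun z => ?_
      rw [norm_mul]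
      exact mul_le_of_le_one_left (norm_nonneg _) (hχb δ z)
    · rw [ae_restrict_iff' A.ho.measurableSet]
      refine Eventually.of_forall fun z hz => ?_
      have p1 := sub_pos.mpr (A.lower z hz)
      have p2 := sub_pos.mpr (A.upper z hz)
      refine tendsto_const_nhds.congr' ?_
      filter_upwards [Ioo_mem_nhdsGT (half_pos p1), Ioo_mem_nhdsGT (half_pos p2)] with δ d1 d2
      simp only [hχ]
      rw [η_one (by rw [le_div_iff₀ d1.1]; linarith [d1.2]),
        η_one (by rw [le_div_iff₀ d1.1]; linarith [d2.2])]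
      ring
  have l4 := l2.sub l1
  rw [sub_neg_eq_add, add_comm] at l4
  refine le_of_tendsto_of_tendsto l3 l4 ?_
  filter_upwards [Ioo_mem_nhdsGT (show 0 < (c₂ - c₁) / 4 by linarith [A.lt])] with δ hδ
  have hδ0 := hδ.1
  have hχ0 : ∀ z, 0 ≤ χ δ z := by
    intro z
    simp only [hχ]
    rcases le_total (ψ z - c₁) (c₂ - ψ z) with h1 | h1
    · rw [η_one (x := (c₂ - ψ z) / δ) (by rw [le_div_iff₀ hδ0]; linarith [hδ.2])]
      linarith [η_nonneg ((ψ z - c₁) / δ)]
    · rw [η_one (x := (ψ z - c₁) / δ) (by rw [le_div_iff₀ hδ0]; linarith [hδ.2])]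
      linarith [η_nonneg ((c₂ - ψ z) / δ)]
  set K : Set ℂ := closure U ∩ {z | c₁ + δ ≤ ψ z ∧ ψ z ≤ c₂ - δ} with hK
  have hKc : IsCompact K := A.hb.isCompact_closure.inter_right
    ((isClosed_le continuous_const hψc).inter (isClosed_le hψc continuous_const))
  have hKU : K ⊆ U := by
    intro z hz
    by_contra h1
    have h2 : z ∈ frontier U := ⟨hz.1, by rwa [A.ho.interior_eq]⟩
    rw [A.hf] at h2
    rcases h2 with ⟨t, rfl⟩ | ⟨t, rfl⟩
    · linarith [hz.2.1, A.val₁ t]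
    · linarith [hz.2.2, A.val₂ t]
  set Z : ℂ → ℂ := U.indicator (fun z => (χ δ z : ℂ) * Y z) with hZ
  have hZ0 : ∀ z, z ∉ K → Z z = 0 := by
    intro z hz
    by_cases hU : z ∈ U
    · rw [hZ, indicator_of_mem hU]
      have h1 : ¬ (c₁ + δ ≤ ψ z ∧ ψ z ≤ c₂ - δ) := fun h2 => hz ⟨subset_closure hU, h2⟩
      have h2 : χ δ z = 0 := by
        simp only [hχ]
        rcases not_and_or.mp h1 with h3 | h3
        · rw [η_zero (by rw [div_le_iff₀ hδ0]; linarith),
            η_one (by rw [le_div_iff₀ hδ0]; linarith [hδ.2])]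
          ring
        · rw [η_zero (x := (c₂ - ψ z) / δ) (by rw [div_le_iff₀ hδ0]; linarith),
            η_one (by rw [le_div_iff₀ hδ0]; linarith [hδ.2])]
          ring
      simp [h2]
    · rw [hZ, indicator_of_notMem hU]
  have hχd : ContDiff ℝ 1 (χ δ) :=
    ((η_contDiff.comp ((hψ1.sub contDiff_const).div_const δ)).add
      (η_contDiff.comp ((contDiff_const.sub hψ1).div_const δ))).sub contDiff_const
  have hχd' : ContDiff ℝ 1 (fun z => (χ δ z : ℂ)) := ofRealCLM.contDiff.comp hχd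
  have hZU : ∀ z ∈ U, Z =ᶠ[𝓝 z] fun z => (χ δ z : ℂ) * Y z := by
    intro z hz
    filter_upwards [A.ho.mem_nhds hz] with w hw
    rw [hZ, indicator_of_mem hw]
  have hZK : ∀ z, z ∉ K → Z =ᶠ[𝓝 z] fun _ => 0 := by
    intro z hz
    filter_upwards [hKc.isClosed.isOpen_compl.mem_nhds hz] with w hw
    exact hZ0 w hw
  have hZd : ContDiff ℝ 1 Z := by
    rw [contDiff_iff_contDiffAt]
    intro z
    by_cases hU : z ∈ U
    · exact (hχd'.contDiffAt.mul (hYd z hU)).congr_of_eventuallyEq (hZU z hU)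
    · exact contDiffAt_const.congr_of_eventuallyEq (hZK z fun h1 => hU (hKU h1))
  obtain ⟨i1, i2⟩ := integral_dbar_zero hZd (HasCompactSupport.intro hKc hZ0)
  have i3 : ∫ z in U, (dbar Z z).re = 0 := by
    rw [setIntegral_eq_integral_of_forall_compl_eq_zero, i2]
    intro z hz
    unfold dbar
    rw [(hZK z fun h1 => hz (hKU h1)).fderiv_eq]
    simp
  have hcl := A.hb.isCompact_closure
  have j1 : IntegrableOn (fun z => deriv η ((ψ z - c₁) / δ) / δ * H z) U :=
    (((Continuous.continuousOn (by fun_prop)).mul hHc).integrableOn_compact hcl).mono_set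
      subset_closure
  have j2 : IntegrableOn (fun z => deriv η ((c₂ - ψ z) / δ) / δ * H z) U :=
    (((Continuous.continuousOn (by fun_prop)).mul hHc).integrableOn_compact hcl).mono_set
      subset_closure
  have j3 : IntegrableOn (fun z => χ δ z * h z) U :=
    hint.bdd_mul (c := 1) (hχc δ).aestronglyMeasurable (Eventually.of_forall fun z => hχb δ z)
  have j4 := setIntegral_mono_on j3 (i1.integrableOn.add (j2.sub j1)) A.ho.measurableSet (by
    intro z hz
    have d1 : DifferentiableAt ℝ ψ z := hψ1.differentiable (by simp) z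
    have d2 : HasDerivAt (fun s => η ((s - c₁) / δ) + η ((c₂ - s) / δ) - 1)
        (deriv η ((ψ z - c₁) / δ) / δ - deriv η ((c₂ - ψ z) / δ) / δ) (ψ z) := by
      have a1 := (η_hasDerivAt ((ψ z - c₁) / δ)).comp (ψ z)
        (((hasDerivAt_id (ψ z)).sub_const c₁).div_const δ)
      have a2 := (η_hasDerivAt ((c₂ - ψ z) / δ)).comp (ψ z)
        (((hasDerivAt_id (ψ z)).const_sub c₂).div_const δ)
      exact ((a1.add a2).sub_const 1).congr_deriv (by ring)
    have d3 : dbar Z z = (starRingEnd ℂ) (Fc (χ δ) z) * Y z + χ δ z * dbar Y z := by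
      have : dbar Z z = dbar (fun z => (χ δ z : ℂ) * Y z) z := by
        unfold dbar; rw [(hZU z hz).fderiv_eq]
      rw [this, dbar_mul (hχd'.differentiable (by simp) z) ((hYd z hz).differentiableAt (by simp)),
        dbar_real (hχd.differentiable (by simp) z)]
    have d4 := Fc_comp d1 d2
    have d5 : (dbar Z z).re = (deriv η ((ψ z - c₁) / δ) / δ - deriv η ((c₂ - ψ z) / δ) / δ) * H z
        + χ δ z * (dbar Y z).re := by
      rw [d3, show Fc (χ δ) z = _ from d4, map_mul, conj_ofReal, add_re, re_ofReal_mul, mul_assoc,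
        re_ofReal_mul, mul_comm _ (Y z)]
    have d6 := mul_le_mul_of_nonneg_left (hle z hz) (hχ0 z)
    simp only [Pi.add_apply, Pi.sub_apply, d5]
    linarith)
  simp only [Pi.add_apply, Pi.sub_apply] at j4
  have j5 : IntegrableOn (fun z => deriv η ((c₂ - ψ z) / δ) / δ * H z
      - deriv η ((ψ z - c₁) / δ) / δ * H z) U := j2.sub j1
  rw [integral_add i1.integrableOn j5, i3, zero_add, integral_sub j2 j1] at j4
  exact j4

end Pool.Agent.P.MP_7e8329_an
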