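import Pool.Agent.P.MP_7e8329_an.Curve

set_option autoImplicit false

open Set MeasureTheory Filter Topology Complex Metric InnerProductSpace

namespace Pool.Agent.P.MP_7e8329_an

theorem harnack {φ : ℂ → ℝ} (hc : Continuous φ) {c w : ℂ} {R : ℝ}
    (hh : HarmonicOnNhd φ (ball c R)) (h0 : ∀ z ∈ ball c R, 0 ≤ φ z) (hw : w ∈ ball c R) :
    (R - ‖w - c‖) / (R + ‖w - c‖) * φ c ≤ φ w := by
  have hR : 0 < R := pos_of_mem_ball hw
  have hcl : HarmonicContOnCl φ (ball c R) := ⟨hh, hc.continuousOn⟩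
  have h1 := hcl.circleAverage_re_herglotzRieszKernel_smul hw
  have h2 : Real.circleAverage φ c R = φ c := by
    apply InnerProductSpace.HarmonicContOnCl.circleAverage_eq
    rwa [abs_of_pos hR]
  have h0' : ∀ z ∈ sphere c R, 0 ≤ φ z := by
    intro z hz
    have : z ∈ closure (ball c R) := by
      rw [closure_ball c hR.ne']
      exact sphere_subset_closedBall hz
    exact (isClosed_le continuous_const hc).closure_subset_iff.mpr h0 this
  rw [← h1, ← h2, ← smul_eq_mul, ← Real.circleAverage_fun_smul]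
  apply Real.circleAverage_mono
  · exact (Continuous.continuousOn (by fun_prop)).circleIntegrable'
  · apply ContinuousOn.circleIntegrable'
    exact (continuous_re.comp_continuousOn (continuousOn_herglotzRieszKernel_sphere hw)).smul
      hc.continuousOn
  · intro z hz
    rw [abs_of_pos hR] at hz
    exact mul_le_mul_of_nonneg_right (le_re_herglotzRieszKernel hz hw) (h0' z hz)

theorem pos_of_harmonic {φ : ℂ → ℝ} (hc : Continuous φ) {U : Set ℂ} (ho : IsOpen U)
    (hU : IsPreconnected U) (hh : HarmonicOnNhd φ U) (h0 : ∀ z ∈ U, 0 ≤ φ z) {z0 : ℂ}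
    (hz0 : z0 ∈ U) (hp : 0 < φ z0) : ∀ z ∈ U, 0 < φ z := by
  have key : U ⊆ {z | 0 < φ z} ∪ interior {z | φ z ≤ 0} := by
    intro z hz
    rcases (h0 z hz).lt_or_eq with h | h
    · exact Or.inl h
    · right
      obtain ⟨ε, hε, hb⟩ := Metric.isOpen_iff.mp ho z hz
      rw [mem_interior_iff_mem_nhds]
      filter_upwards [ball_mem_nhds z (half_pos hε)] with c hc'
      have hsub : ball c (ε / 2) ⊆ U := by
        refine Subset.trans ?_ hb
        intro y hy
        rw [mem_ball] at *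
        linarith [dist_triangle y c z]
      have hz' : z ∈ ball c (ε / 2) := by rwa [mem_ball_comm]
      have h1 := harnack hc (hh.mono hsub) (fun y hy => h0 y (hsub hy)) hz'
      rw [← h] at h1
      have h2 : 0 < (ε / 2 - ‖z - c‖) / (ε / 2 + ‖z - c‖) := by
        rw [mem_ball, dist_eq_norm] at hz'
        apply div_pos <;> linarith [norm_nonneg (z - c)]
      by_contra h3
      have h4 : 0 < φ c := not_le.mp h3
      nlinarith [mul_pos h2 h4]
  rcases hU.subset_or_subset (isOpen_lt continuous_const hc) isOpen_interior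
    (by
      rw [Set.disjoint_left]
      intro z h1 h2
      have h3 : φ z ≤ 0 := interior_subset (s := {z | φ z ≤ 0}) h2
      exact absurd h3 (not_le.mpr h1)) key with h | h
  · exact h
  · have h3 : φ z0 ≤ 0 := interior_subset (s := {z | φ z ≤ 0}) (h hz0)
    exact absurd h3 (not_le.mpr hp)

theorem min_principle {φ : ℂ → ℝ} (hc : Continuous φ) {U : Set ℂ} (ho : IsOpen U)
    (hU : IsPreconnected U) (hb : Bornology.IsBounded U) (hh : HarmonicOnNhd φ U)
    (h0 : ∀ z ∈ frontier U, 0 ≤ φ z) {q : ℂ} (hq : q ∈ frontier U) (hp : 0 < φ q) :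
    ∀ z ∈ U, 0 < φ z := by
  obtain ⟨z0, hz0, hz0U⟩ := mem_closure_iff_nhds.mp (frontier_subset_closure hq) _
    ((isOpen_lt continuous_const hc).mem_nhds hp)
  obtain ⟨m, hm, hmin⟩ := hb.isCompact_closure.exists_isMinOn ⟨q, frontier_subset_closure hq⟩
    hc.continuousOn
  have hm0 : 0 ≤ φ m := by
    by_contra hneg
    have hneg' : φ m < 0 := not_le.mp hneg
    have hmU : m ∈ U := by
      by_contra h
      exact hneg (h0 m ⟨hm, by rwa [ho.interior_eq]⟩)
    have := pos_of_harmonic (φ := φ - fun _ => φ m) (by fun_prop) ho hU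
      (hh.sub (harmonicOnNhd_const _)) (fun z hz => sub_nonneg.mpr (hmin (subset_closure hz)))
      hz0U (by
        have : 0 < φ z0 := hz0
        simp only [Pi.sub_apply]; linarith) m hmU
    simp at this
  exact pos_of_harmonic hc ho hU hh (fun z hz => hm0.trans (hmin (subset_closure hz))) hz0U hz0

theorem hopf {φ : ℂ → ℝ} (hc : Continuous φ) {q n : ℂ} (hn : n ≠ 0)
    (hd : DifferentiableAt ℝ φ q) (hh : HarmonicOnNhd φ (ball (q + n) ‖n‖))
    (h0 : ∀ z ∈ ball (q + n) ‖n‖, 0 < φ z) (hq : φ q = 0) : 0 < fderiv ℝ φ q n := by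
  have hR : 0 < ‖n‖ := norm_pos_iff.mpr hn
  have hc0 : 0 < φ (q + n) := h0 _ (mem_ball_self hR)
  have hg : HasDerivAt (fun τ : ℝ => φ (q + τ • n)) (fderiv ℝ φ q n) 0 :=
    hd.hasFDerivAt.hasLineDerivAt n
  have hs := (hasDerivAt_iff_tendsto_slope_zero.mp hg).mono_left
    (nhdsWithin_mono _ (fun x (hx : x ∈ Ioi (0 : ℝ)) => ne_of_gt hx))
  have hge : φ (q + n) / 2 ≤ fderiv ℝ φ q n := by
    refine ge_of_tendsto hs ?_
    filter_upwards [Ioo_mem_nhdsGT zero_lt_one] with τ hτ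
    have e1 : ‖q + τ • n - (q + n)‖ = (1 - τ) * ‖n‖ := by
      have : q + τ • n - (q + n) = (τ - 1) • n := by
        simp only [sub_smul, one_smul]; ring
      rw [this, norm_smul, Real.norm_eq_abs, abs_of_neg (by linarith [hτ.2])]
      ring
    have hw : q + τ • n ∈ ball (q + n) ‖n‖ := by
      rw [mem_ball, dist_eq_norm, e1]
      nlinarith [hτ.1]
    have h1 := harnack hc hh (fun z hz => (h0 z hz).le) hw
    rw [e1] at h1
    have h2 : τ / 2 ≤ (‖n‖ - (1 - τ) * ‖n‖) / (‖n‖ + (1 - τ) * ‖n‖) := by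
      rw [div_le_div_iff₀ two_pos (by nlinarith [hτ.2])]
      nlinarith [hτ.1, mul_pos hτ.1 hR, mul_pos (mul_pos hτ.1 hτ.1) hR]
    simp only [zero_add, zero_smul, add_zero, hq, sub_zero, smul_eq_mul]
    rw [← div_eq_inv_mul, le_div_iff₀ hτ.1]
    nlinarith [mul_le_mul_of_nonneg_right h2 hc0.le]
  linarith

/-- The complex gradient `ψ_x - i ψ_y`. -/
noncomputable def Fc (ψ : ℂ → ℝ) (z : ℂ) : ℂ := fderiv ℝ ψ z 1 - I * fderiv ℝ ψ z I

theorem clm_apply_eq {E : Type} [NormedAddCommGroup E] [NormedSpace ℝ E] (L : ℂ →L[ℝ] E) (v : ℂ) :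
    L v = v.re • L 1 + v.im • L I := by
  conv_lhs => rw [← re_add_im v]
  rw [map_add, ← map_smul, ← map_smul]
  simp

theorem fderiv_eq_re (ψ : ℂ → ℝ) (z v : ℂ) : fderiv ℝ ψ z v = (Fc ψ z * v).re := by
  rw [clm_apply_eq]
  simp [Fc]
  ring

theorem norm_fderiv_eq (ψ : ℂ → ℝ) (z : ℂ) : ‖fderiv ℝ ψ z‖ = ‖Fc ψ z‖ := by
  apply le_antisymm
  · refine ContinuousLinearMap.opNorm_le_bound _ (norm_nonneg _) fun v => ?_
    rw [fderiv_eq_re, ← norm_mul]
    exact abs_re_le_norm _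
  · by_cases h0 : Fc ψ z = 0
    · rw [h0, norm_zero]; exact norm_nonneg _
    · have h1 := (fderiv ℝ ψ z).le_opNorm ((starRingEnd ℂ) (Fc ψ z))
      rw [fderiv_eq_re, mul_conj, ofReal_re, Real.norm_eq_abs, abs_of_nonneg (normSq_nonneg _),
        normSq_eq_norm_sq, norm_conj, sq] at h1
      exact le_of_mul_le_mul_right h1 (norm_pos_iff.mpr h0)

theorem contDiff_Fc {ψ : ℂ → ℝ} (h : ContDiff ℝ 2 ψ) : ContDiff ℝ 1 (Fc ψ) := by
  have h1 : ContDiff ℝ 1 (fderiv ℝ ψ) := h.fderiv_right (by norm_num)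
  have h2 : ∀ v : ℂ, ContDiff ℝ 1 (fun z => ((fderiv ℝ ψ z v : ℝ) : ℂ)) := fun v =>
    ofRealCLM.contDiff.comp (h1.clm_apply contDiff_const)
  exact (h2 1).sub (contDiff_const.mul (h2 I))

theorem Fc_analytic {ψ : ℂ → ℝ} {z : ℂ} (h : HarmonicAt ψ z) : AnalyticAt ℂ (Fc ψ) z :=
  HarmonicAt.analyticAt_complex_partial h

/-- The derivative of the complex gradient. -/
noncomputable def F1 (ψ : ℂ → ℝ) (z : ℂ) : ℂ := fderiv ℝ (Fc ψ) z 1

theorem continuous_F1 {ψ : ℂ → ℝ} (h : ContDiff ℝ 2 ψ) : Continuous (F1 ψ) :=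
  ((contDiff_Fc h).continuous_fderiv (by simp)).clm_apply continuous_const

theorem fderiv_of_hasDerivAt {f : ℂ → ℂ} {f' z : ℂ} (h : HasDerivAt f f' z) (v : ℂ) :
    fderiv ℝ f z v = f' * v := by
  rw [(h.hasFDerivAt.restrictScalars ℝ).fderiv]
  simp [mul_comm]

theorem F1_eq_deriv {ψ : ℂ → ℝ} {z : ℂ} (h : HarmonicAt ψ z) : F1 ψ z = deriv (Fc ψ) z := by
  rw [F1, fderiv_of_hasDerivAt (Fc_analytic h).differentiableAt.hasDerivAt, mul_one]

theorem hasDerivAt_Fc {ψ : ℂ → ℝ} {z : ℂ} (h : HarmonicAt ψ z) : HasDerivAt (Fc ψ) (F1 ψ z) z := by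
  rw [F1_eq_deriv h]
  exact (Fc_analytic h).differentiableAt.hasDerivAt

theorem F1_analytic {ψ : ℂ → ℝ} {z : ℂ} (h : HarmonicAt ψ z) : AnalyticAt ℂ (F1 ψ) z := by
  refine (Fc_analytic h).deriv.congr ?_
  filter_upwards [h.eventually] with y hy
  exact (F1_eq_deriv hy).symm

theorem fderiv_Fc_closure {ψ : ℂ → ℝ} (h : ContDiff ℝ 2 ψ) {U : Set ℂ} (hh : HarmonicOnNhd ψ U)
    {z : ℂ} (hz : z ∈ closure U) (v : ℂ) : fderiv ℝ (Fc ψ) z v = F1 ψ z * v := by
  have h1 : Continuous (fun z => fderiv ℝ (Fc ψ) z v) :=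
    ((contDiff_Fc h).continuous_fderiv (by simp)).clm_apply continuous_const
  have h2 : Continuous (fun z => F1 ψ z * v) := (continuous_F1 h).mul continuous_const
  exact (isClosed_eq h1 h2).closure_subset_iff.mpr
    (fun y hy => fderiv_of_hasDerivAt (hasDerivAt_Fc (hh y hy)) v) hz

theorem harmonic_of_lap {ψ : ℂ → ℝ} (h : ContDiff ℝ 2 ψ) {U : Set ℂ} (ho : IsOpen U)
    (hl : ∀ z ∈ U, iteratedFDeriv ℝ 2 ψ z ![(1 : ℂ), 1]
      + iteratedFDeriv ℝ 2 ψ z ![Complex.I, Complex.I] = 0) : HarmonicOnNhd ψ U := by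
  intro z hz
  refine ⟨h.contDiffAt, ?_⟩
  filter_upwards [ho.mem_nhds hz] with y hy
  rw [laplacian_eq_iteratedFDeriv_complexPlane]
  exact hl y hy

end Pool.Agent.P.MP_7e8329_an
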