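import Pool.Agent.P.MP_7e8329_an.Rot

set_option autoImplicit false

open Set MeasureTheory Filter Topology Complex Metric InnerProductSpace

namespace Pool.Agent.P.MP_7e8329_an

variable {U : Set ℂ} {γ γ₁ γ₂ : ℝ → ℂ} {ψ : ℂ → ℝ} {c₁ c₂ r₁ r₂ : ℝ}

theorem im_eq_of_re_zero {a : ℂ} (h0 : a.re = 0) : |a.im| = ‖a‖ := by
  rw [norm_eq_sqrt_sq_add_sq, h0]
  simp [Real.sqrt_sq_eq_abs]

theorem Ann.im₁ (A : Ann U γ₁ γ₂ ψ c₁ c₂ r₁ r₂) (t : ℝ) :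
    (Fc ψ (γ₁ t) * deriv γ₁ t).im = (-1) * (‖Fc ψ (γ₁ t)‖ * ‖deriv γ₁ t‖) := by
  have h1 := im_eq_of_re_zero (A.s₁.jc.tangential A.smooth A.val₁ t)
  have h2 := A.nor₁ t
  rw [mul_left_comm, I_mul_re] at h2
  rw [abs_of_neg (by linarith), norm_mul] at h1
  linarith

theorem Ann.im₂ (A : Ann U γ₁ γ₂ ψ c₁ c₂ r₁ r₂) (t : ℝ) :
    (Fc ψ (γ₂ t) * deriv γ₂ t).im = 1 * (‖Fc ψ (γ₂ t)‖ * ‖deriv γ₂ t‖) := by
  have h1 := im_eq_of_re_zero (A.s₂.jc.tangential A.smooth A.val₂ t)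
  have h2 := A.nor₂ t
  rw [mul_left_comm, I_mul_re] at h2
  rw [abs_of_pos (by linarith), norm_mul] at h1
  linarith

theorem Ann.ne₁ (A : Ann U γ₁ γ₂ ψ c₁ c₂ r₁ r₂) (t : ℝ) : Fc ψ (γ₁ t) ≠ 0 := by
  intro h
  have h2 := A.nor₁ t
  simp [h] at h2

theorem Ann.ne₂ (A : Ann U γ₁ γ₂ ψ c₁ c₂ r₁ r₂) (t : ℝ) : Fc ψ (γ₂ t) ≠ 0 := by
  intro h
  have h2 := A.nor₂ t
  simp [h] at h2

theorem JC.log_im (h : JC γ) (hψ : ContDiff ℝ 2 ψ) (hh : HarmonicOnNhd ψ U) {c : ℝ}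
    (hc : ∀ t, ψ (γ t) = c) (hcl : ∀ t, γ t ∈ closure U) (hne : ∀ t, Fc ψ (γ t) ≠ 0) (t : ℝ) :
    (F1 ψ (γ t) / Fc ψ (γ t) * deriv γ t).im = -(deriv (deriv γ) t / deriv γ t).im := by
  have h1 := ((contDiff_Fc hψ).differentiable (by simp) (γ t)).hasFDerivAt.comp_hasDerivAt t
    (h.hasDerivAt t)
  rw [fderiv_Fc_closure hψ hh (hcl t)] at h1
  have h2 := reCLM.hasFDerivAt.comp_hasDerivAt t (h1.mul (h.hasDerivAt1 t))
  have h3 : (reCLM ∘ (Fc ψ ∘ γ * deriv γ)) = fun _ => 0 := funext fun s => h.tangential hψ hc s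
  rw [h3] at h2
  have h4 : (F1 ψ (γ t) * deriv γ t * deriv γ t + Fc ψ (γ t) * deriv (deriv γ) t).re = 0 :=
    h2.unique (hasDerivAt_const t 0)
  have h5 := h.tangential hψ hc t
  have h6 : F1 ψ (γ t) / Fc ψ (γ t) * deriv γ t + deriv (deriv γ) t / deriv γ t =
      (F1 ψ (γ t) * deriv γ t * deriv γ t + Fc ψ (γ t) * deriv (deriv γ) t) /
        (Fc ψ (γ t) * deriv γ t) := by
    have := hne t
    have := h.reg t
    field_simp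
  have h7 := congrArg im h6
  rw [div_im, h4, h5, add_im, mul_zero, zero_mul, sub_self] at h7
  linarith

/-- The total flux of the gradient. -/
noncomputable def Phi (ψ : ℂ → ℝ) (γ : ℝ → ℂ) : ℝ :=
  ∫ t in (0 : ℝ)..1, ‖Fc ψ (γ t)‖ * ‖deriv γ t‖

/-- The logarithmic moment of the gradient. -/
noncomputable def Nl (ψ : ℂ → ℝ) (γ : ℝ → ℂ) : ℝ :=
  ∫ t in (0 : ℝ)..1, Real.log ‖Fc ψ (γ t)‖ * (‖Fc ψ (γ t)‖ * ‖deriv γ t‖)

/-- The test field. -/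
noncomputable def Yt (ψ : ℂ → ℝ) (H k k₁ : ℝ → ℝ) (e : ℝ) (z : ℂ) : ℂ :=
  (H (ψ z) : ℂ) * Fc ψ z + (k₁ (ψ z) : ℂ) * (Real.log (‖Fc ψ z‖ ^ 2 + e) : ℂ) * Fc ψ z
    - ((2 * k (ψ z) : ℝ) : ℂ) * Greg (Fc ψ) (F1 ψ) e z

theorem JC.flux_Yt (h : JC γ) (hψ : ContDiff ℝ 2 ψ) (hh : HarmonicOnNhd ψ U) {c σ : ℝ}
    (hc : ∀ t, ψ (γ t) = c) (hcl : ∀ t, γ t ∈ closure U) (hne : ∀ t, Fc ψ (γ t) ≠ 0)
    (him : ∀ t, (Fc ψ (γ t) * deriv γ t).im = σ * (‖Fc ψ (γ t)‖ * ‖deriv γ t‖))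
    (H k k₁ : ℝ → ℝ) :
    Tendsto (fun e => flux (Yt ψ H k k₁ (e ^ 2)) γ) (𝓝[>] 0)
      (𝓝 (σ * (H c * Phi ψ γ + 2 * k₁ c * Nl ψ γ) + 2 * k c * W (deriv γ))) := by
  have hF := (contDiff_Fc hψ).continuous
  have hγ := h.cont
  have hγ1 := h.cont1
  have hn : ∀ t, 0 < ‖Fc ψ (γ t)‖ := fun t => norm_pos_iff.mpr (hne t)
  have c1 : Continuous fun e => flux (Yt ψ H k k₁ (e ^ 2)) γ := by
    apply h.flux_cont (Y := fun e => Yt ψ H k k₁ (e ^ 2))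
    simp only [Yt, hc]
    refine Continuous.sub (Continuous.add (by fun_prop) (Continuous.mul (continuous_const.mul
      (continuous_ofReal.comp (Continuous.log (by fun_prop) ?_))) (by fun_prop)))
      (continuous_const.mul (Greg_cont hF (continuous_F1 hψ) hγ hne))
    intro p
    have := hn p.2
    positivity
  have c2 : Continuous fun t => deriv (deriv γ) t / deriv γ t := h.cont2.div hγ1 h.reg
  have c3 : Continuous fun t => ‖Fc ψ (γ t)‖ * ‖deriv γ t‖ := by fun_prop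
  have c4 : Continuous fun t => Real.log ‖Fc ψ (γ t)‖ * (‖Fc ψ (γ t)‖ * ‖deriv γ t‖) :=
    (Continuous.log (by fun_prop) fun t => (hn t).ne').mul c3
  have c5 : Continuous fun t => (deriv (deriv γ) t / deriv γ t).im := continuous_im.comp c2
  convert (c1.tendsto 0).mono_left (nhdsWithin_le_nhds (s := Ioi 0)) using 2
  rw [W, im_integral c2, Phi, Nl, ← intervalIntegral.integral_const_mul,
    ← intervalIntegral.integral_const_mul, ← intervalIntegral.integral_const_mul,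
    ← intervalIntegral.integral_add ((c3.const_mul _).intervalIntegrable _ _)
      ((c4.const_mul _).intervalIntegrable _ _), ← intervalIntegral.integral_const_mul,
    ← intervalIntegral.integral_add ((((c3.const_mul _).fun_add
      (c4.const_mul _)).const_mul _).intervalIntegrable _ _)
      ((c5.const_mul _).intervalIntegrable _ _), flux]
  congr 1
  ext t
  rw [zero_pow two_ne_zero, Yt, Greg_zero (hne t), hc, add_zero, Real.log_pow, sub_mul, add_mul,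
    sub_im, add_im, mul_assoc _ (Fc ψ (γ t)), mul_assoc _ (Fc ψ (γ t)), mul_assoc (k₁ c : ℂ),
    mul_assoc ((2 * k c : ℝ) : ℂ), im_ofReal_mul, im_ofReal_mul,
    im_ofReal_mul, im_ofReal_mul, him, h.log_im hψ hh hc hcl hne]
  push_cast
  ring

theorem contDiff_of_hasDerivAt {f f' : ℝ → ℝ} (h : ∀ s, HasDerivAt f (f' s) s)
    (hc : Continuous f') : ContDiff ℝ 1 f := by
  rw [contDiff_one_iff_deriv]
  exact ⟨fun s => (h s).differentiableAt, by rwa [show deriv f = f' from funext fun s => (h s).deriv]⟩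

theorem Ann.main_ineq (A : Ann U γ₁ γ₂ ψ c₁ c₂ r₁ r₂) {k k₁ k₂ H H₁ : ℝ → ℝ}
    (hk : ∀ s, HasDerivAt k (k₁ s) s) (hk₁ : ∀ s, HasDerivAt k₁ (k₂ s) s) (hk₂ : Continuous k₂)
    (hH : ∀ s, HasDerivAt H (H₁ s) s) (hH₁ : Continuous H₁)
    (hneg : ∀ s, c₁ < s → s < c₂ → k s ≤ 0) {h : ℂ → ℝ} (hint : IntegrableOn h U)
    (hpt : ∀ z ∈ U, ∀ y, 0 < y → ‖Fc ψ z‖ ^ 2 ≤ y →
      h z ≤ ‖Fc ψ z‖ ^ 2 * (H₁ (ψ z) + k₂ (ψ z) * Real.log y)) :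
    ∫ z in U, h z ≤ H c₂ * Phi ψ γ₂ - H c₁ * Phi ψ γ₁ + 2 * (k₁ c₂ * Nl ψ γ₂ - k₁ c₁ * Nl ψ γ₁
      + k c₁ * W (deriv γ₁) + k c₂ * W (deriv γ₂)) := by
  have l1 := A.s₁.jc.flux_Yt A.smooth A.harm A.val₁ A.s₁.curve_mem A.ne₁ A.im₁ H k k₁
  have l2 := A.s₂.jc.flux_Yt A.smooth A.harm A.val₂ A.s₂.curve_mem A.ne₂ A.im₂ H k k₁
  refine le_trans (ge_of_tendsto (l1.add l2) ?_) (le_of_eq (by ring))
  filter_upwards [self_mem_nhdsWithin] with e he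
  have he0 : 0 < e ^ 2 := pow_pos he 2
  generalize e ^ 2 = e at he0
  have hψ1 : ContDiff ℝ 1 ψ := A.smooth.of_le (by norm_num)
  have dF := contDiff_Fc A.smooth
  have dk₁ := contDiff_of_hasDerivAt hk₁ hk₂
  have dk := contDiff_of_hasDerivAt hk dk₁.continuous
  have dH := contDiff_of_hasDerivAt hH hH₁
  have hp : ∀ z, 0 < ‖Fc ψ z‖ ^ 2 + e := fun z => by positivity
  have a1 : ContDiff ℝ 1 (fun z => H (ψ z)) := dH.comp hψ1
  have a2 : ContDiff ℝ 1 (fun z => k₁ (ψ z)) := dk₁.comp hψ1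
  have a3 : ContDiff ℝ 1 (fun z => Real.log (‖Fc ψ z‖ ^ 2 + e)) :=
    ((dF.norm_sq ℝ).add contDiff_const).log fun z => (hp z).ne'
  have a4 : ContDiff ℝ 1 (fun z => 2 * k (ψ z)) := contDiff_const.mul (dk.comp hψ1)
  have b1 : ContDiff ℝ 1 (fun z => (H (ψ z) : ℂ)) := ofRealCLM.contDiff.comp a1
  have b2 : ContDiff ℝ 1 (fun z => (k₁ (ψ z) : ℂ)) := ofRealCLM.contDiff.comp a2
  have b3 : ContDiff ℝ 1 (fun z => (Real.log (‖Fc ψ z‖ ^ 2 + e) : ℂ)) := ofRealCLM.contDiff.comp a3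
  have b4 : ContDiff ℝ 1 (fun z => ((2 * k (ψ z) : ℝ) : ℂ)) := ofRealCLM.contDiff.comp a4
  have b5 : ContDiff ℝ 1 (fun z => (H (ψ z) : ℂ) * Fc ψ z) := b1.mul dF
  have b6 : ContDiff ℝ 1 (fun z => (k₁ (ψ z) : ℂ) * (Real.log (‖Fc ψ z‖ ^ 2 + e) : ℂ)) := b2.mul b3
  have b7 : ContDiff ℝ 1
    (fun z => (k₁ (ψ z) : ℂ) * (Real.log (‖Fc ψ z‖ ^ 2 + e) : ℂ) * Fc ψ z) := b6.mul dF
  have b8 : ContDiff ℝ 1 (fun z => (H (ψ z) : ℂ) * Fc ψ z +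
    (k₁ (ψ z) : ℂ) * (Real.log (‖Fc ψ z‖ ^ 2 + e) : ℂ) * Fc ψ z) := b5.add b7
  have g1 : Continuous (Greg (Fc ψ) (F1 ψ) e) := by
    have := dF.continuous
    have := continuous_F1 A.smooth
    unfold Greg
    exact Continuous.mul (by fun_prop)
      (continuous_ofReal.comp (Continuous.inv₀ (by fun_prop) fun z => (hp z).ne'))
  have g2 : ∀ z ∈ U, ContDiffAt ℝ 1 (Greg (Fc ψ) (F1 ψ) e) z := fun z hz =>
    Greg_diff dF.contDiffAt ((F1_analytic (A.harm z hz)).contDiffAt.restrict_scalars ℝ) he0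
  refine A.green (Y := Yt ψ H k k₁ e) (b8.continuous.sub (b4.continuous.mul g1)).continuousOn
    (fun z hz => b8.contDiffAt.sub (b4.contDiffAt.mul (g2 z hz))) hint fun z hz => ?_
  have D : ∀ {f : ℂ → ℂ}, ContDiff ℝ 1 f → DifferentiableAt ℝ f z := fun hf =>
    hf.differentiable (by simp) z
  have D' : ∀ {f : ℂ → ℝ}, ContDiff ℝ 1 f → DifferentiableAt ℝ f z := fun hf =>
    hf.differentiable (by simp) z
  have g3 := (g2 z hz).differentiableAt (by simp)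
  have hF := hasDerivAt_Fc (A.harm z hz)
  have e1 := Fc_comp (D' hψ1) (hH (ψ z))
  have e2 := Fc_comp (D' hψ1) (hk₁ (ψ z))
  have e3 := Fc_comp (normSqDiff (D dF) e) (Real.hasDerivAt_log (hp z).ne')
  have e4 := Fc_comp (D' hψ1) ((hk (ψ z)).const_mul 2)
  rw [Fc_normSq hF] at e3
  have e5 : Fc (fun w => Real.log (‖Fc ψ w‖ ^ 2 + e)) z = 2 * Greg (Fc ψ) (F1 ψ) e z := by
    rw [e3, Greg]; ring
  refine (hpt z hz _ (hp z) (by linarith)).trans ?_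
  unfold Yt
  rw [dbar_sub (D b8) ((D b4).fun_mul g3), dbar_add (D b5) (D b7), dbar_mul (D b1) (D dF),
    dbar_mul (D b6) (D dF), dbar_mul (D b2) (D b3), dbar_mul (D b4) g3, dbar_holo hF,
    dbar_real (D' a1), dbar_real (D' a2), dbar_real (D' a3), dbar_real (D' a4), e1, e2, e5, e4,
    dbar_Greg hF (F1_analytic (A.harm z hz)).differentiableAt.hasDerivAt he0]
  have n1 : 0 ≤ 2 * e * ‖F1 ψ z‖ ^ 2 / (‖Fc ψ z‖ ^ 2 + e) ^ 2 := by positivity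
  have n2 := mul_nonpos_of_nonpos_of_nonneg (hneg _ (A.lower z hz) (A.upper z hz)) n1
  generalize 2 * e * ‖F1 ψ z‖ ^ 2 / (‖Fc ψ z‖ ^ 2 + e) ^ 2 = q at n2 ⊢
  generalize Real.log (‖Fc ψ z‖ ^ 2 + e) = w
  rw [← normSq_eq_norm_sq, normSq_apply]
  simp
  nlinarith

end Pool.Agent.P.MP_7e8329_an
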