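import Pool.Agent.P.MP_7e8329_an.Curve

set_option autoImplicit false

open Set MeasureTheory Filter Topology Complex Metric
open scoped ENNReal NNReal

namespace Pool.Agent.P.MP_7e8329_an

variable {γ : ℝ → ℂ}

theorem JC.haus_lt_top (h : JC γ) : μH[1] (range γ) < ∞ := by
  obtain ⟨M, hM, b⟩ := exists_bound h.per1 h.cont1
  have hL : LipschitzWith ⟨M, hM.le⟩ γ :=
    lipschitzWith_of_nnnorm_deriv_le (fun t => (h.hasDerivAt t).differentiableAt) fun t => b t
  rw [h.range_eq]
  refine (hL.hausdorffMeasure_image_le zero_le_one _).trans_lt ?_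
  rw [hausdorffMeasure_real, Real.volume_Ico, ENNReal.rpow_one]
  exact ENNReal.mul_lt_top ENNReal.coe_lt_top ENNReal.ofReal_lt_top

theorem JC.local_length (h : JC γ) {θ : ℝ} (h0 : 0 ≤ θ) (h1 : θ < 1) (t0 : ℝ) :
    ∃ ρ > 0, ∀ E, MeasurableSet E → E ⊆ ball t0 ρ →
      ENNReal.ofReal θ * ∫⁻ t in E, ‖deriv γ t‖ₑ ≤ μH[1] (γ '' E) := by
  have hn : 0 < ‖deriv γ t0‖ := norm_pos_iff.mpr (h.reg t0)
  set e : ℂ := (starRingEnd ℂ) (deriv γ t0) / ‖deriv γ t0‖ with he
  have he1 : ‖e‖ = 1 := by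
    rw [he, norm_div, norm_conj, norm_real, norm_norm, div_self hn.ne']
  have hc := h.cont1
  have hev : ∀ᶠ t in 𝓝 t0, θ * ‖deriv γ t‖ < (e * deriv γ t).re := by
    apply ContinuousAt.eventually_lt (by fun_prop) (by fun_prop)
    have : e * deriv γ t0 = (‖deriv γ t0‖ : ℂ) := by
      rw [he, div_mul_eq_mul_div, mul_comm, mul_conj, normSq_eq_norm_sq]
      have : (‖deriv γ t0‖ : ℂ) ≠ 0 := ofReal_ne_zero.mpr hn.ne'
      push_cast
      field_simp
    rw [this, ofReal_re]
    nlinarith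
  obtain ⟨ρ, hρ, hb⟩ := Metric.eventually_nhds_iff_ball.mp hev
  refine ⟨ρ, hρ, fun E hE hsub => ?_⟩
  have hp : ∀ t, HasDerivAt (fun t => (e * γ t).re) ((e * deriv γ t).re) t := fun t =>
    reCLM.hasFDerivAt.comp_hasDerivAt t ((h.hasDerivAt t).const_mul e)
  have hmono : MonotoneOn (fun t => (e * γ t).re) (ball t0 ρ) :=
    monotoneOn_of_deriv_nonneg (convex_ball _ _)
      (fun t _ => (hp t).continuousAt.continuousWithinAt)
      (fun t _ => (hp t).differentiableAt.differentiableWithinAt) fun t ht => by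
        rw [(hp t).deriv]
        exact le_trans (by positivity) (hb t (interior_subset ht)).le
  have h2 := lintegral_deriv_eq_volume_image_of_monotoneOn hE
    (fun t _ => (hp t).hasDerivWithinAt) (hmono.mono hsub)
  have hL : LipschitzWith 1 (fun z : ℂ => (e * z).re) := by
    refine LipschitzWith.of_dist_le_mul fun x y => ?_
    rw [Real.dist_eq, ← sub_re, ← mul_sub, NNReal.coe_one, one_mul, dist_eq_norm]
    refine (abs_re_le_norm _).trans ?_
    rw [norm_mul, he1, one_mul]
  have h3 := hL.hausdorffMeasure_image_le zero_le_one (γ '' E)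
  rw [hausdorffMeasure_real, image_image] at h3
  simp only [ENNReal.coe_one, ENNReal.one_rpow, one_mul] at h3
  refine le_trans ?_ (h2.le.trans h3)
  rw [← lintegral_const_mul' _ _ ENNReal.ofReal_ne_top]
  refine setLIntegral_mono' hE fun t ht => ?_
  rw [← ofReal_norm, ← ENNReal.ofReal_mul h0]
  exact ENNReal.ofReal_le_ofReal (hb t (hsub ht)).le

theorem JC.length_le (h : JC γ) {E : Set ℝ} (hE : MeasurableSet E) (hsub : E ⊆ Ico 0 1) :
    ∫⁻ t in E, ‖deriv γ t‖ₑ ≤ μH[1] (γ '' E) := by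
  apply ENNReal.le_of_forall_lt_one_mul_le
  intro a ha
  have ha' : a = ENNReal.ofReal a.toReal := (ENNReal.ofReal_toReal ha.ne_top).symm
  have ha1 : a.toReal < 1 := by
    have := (ENNReal.toReal_lt_toReal ha.ne_top ENNReal.one_ne_top).mpr ha
    simpa using this
  have key : ∃ V, Icc (0 : ℝ) 1 ⊆ V ∧ MeasurableSet V ∧ ∀ E, MeasurableSet E → E ⊆ V →
      E ⊆ Ico 0 1 → a * ∫⁻ t in E, ‖deriv γ t‖ₑ ≤ μH[1] (γ '' E) := by
    refine isCompact_Icc.induction_on (p := fun S => ∃ V, S ⊆ V ∧ MeasurableSet V ∧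
      ∀ E, MeasurableSet E → E ⊆ V → E ⊆ Ico 0 1 →
        a * ∫⁻ t in E, ‖deriv γ t‖ₑ ≤ μH[1] (γ '' E)) ?_ ?_ ?_ ?_
    · refine ⟨∅, Subset.rfl, MeasurableSet.empty, fun E _ h1 _ => ?_⟩
      rw [subset_empty_iff.mp h1]
      simp
    · rintro S T hST ⟨V, h1, h2⟩
      exact ⟨V, hST.trans h1, h2⟩
    · rintro S T ⟨V, h1, h2, h3⟩ ⟨V', h1', h2', h3'⟩
      refine ⟨V ∪ V', union_subset_union h1 h1', h2.union h2', fun E hE e1 e2 => ?_⟩
      have b1 := h3 (E ∩ V) (hE.inter h2) inter_subset_right (inter_subset_left.trans e2)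
      have b2 := h3' (E \ V) (hE.diff h2) (fun x hx => (e1 hx.1).resolve_left hx.2)
        (sdiff_subset.trans e2)
      rw [← lintegral_inter_add_sdiff _ E h2, mul_add]
      refine (add_le_add b1 b2).trans (le_of_eq ?_)
      rw [← measure_union, ← image_union, inter_union_sdiff]
      · rw [Set.disjoint_left]
        rintro _ ⟨x, hx, rfl⟩ ⟨y, hy, hxy⟩
        have := h.inj (e2 hy.1) (e2 hx.1) hxy
        exact hy.2 (this ▸ hx.2)
      · exact (hE.diff h2).image_of_continuousOn_injOn h.cont.continuousOn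
          (h.inj.mono (sdiff_subset.trans e2))
    · intro t0 _
      obtain ⟨ρ, hρ, h1⟩ := h.local_length ENNReal.toReal_nonneg ha1 t0
      refine ⟨ball t0 ρ, mem_nhdsWithin_of_mem_nhds (ball_mem_nhds t0 hρ), ball t0 ρ, Subset.rfl,
        measurableSet_ball, fun E hE e1 _ => ?_⟩
      rw [ha']
      exact h1 E hE e1
  obtain ⟨V, h1, -, h3⟩ := key
  exact h3 E hE (hsub.trans (Ico_subset_Icc_self.trans h1)) hsub

theorem JC.integrableOn_haus (h : JC γ) {f : ℂ → ℝ} (hf : Continuous f) :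
    IntegrableOn f (range γ) μH[1] := by
  obtain ⟨C, hC⟩ := h.isCompact.exists_bound_of_continuousOn hf.continuousOn
  exact Measure.integrableOn_of_bounded h.haus_lt_top.ne hf.aestronglyMeasurable (M := C)
    ((ae_restrict_iff' h.isCompact.measurableSet).mpr (Eventually.of_forall hC))

theorem JC.integral_le_haus (h : JC γ) {f : ℂ → ℝ} (hf : Continuous f) (h0 : ∀ z, 0 ≤ f z) :
    ∫ t in (0 : ℝ)..1, ‖deriv γ t‖ * f (γ t) ≤ ∫ z in range γ, f z ∂μH[1] := by
  have hm : Measurable γ := h.cont.measurable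
  have hd : Measurable (fun t => ‖deriv γ t‖₊) := h.cont1.nnnorm.measurable
  have hle : Measure.map γ ((volume.restrict (Ico 0 1)).withDensity fun t => ‖deriv γ t‖₊)
      ≤ (μH[1] : Measure ℂ).restrict (range γ) := by
    rw [Measure.le_iff]
    intro S hS
    rw [Measure.map_apply hm hS, withDensity_apply _ (hm hS), Measure.restrict_restrict (hm hS),
      Measure.restrict_apply hS]
    refine (h.length_le ((hm hS).inter measurableSet_Ico) inter_subset_right).trans
      (measure_mono ?_)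
    rintro _ ⟨t, ht, rfl⟩
    exact ⟨ht.1, t, rfl⟩
  have h1 := integral_mono_measure hle (Eventually.of_forall h0) (h.integrableOn_haus hf)
  rw [integral_map hm.aemeasurable hf.aestronglyMeasurable,
    integral_withDensity_eq_integral_smul hd] at h1
  rw [intervalIntegral.integral_of_le zero_le_one, integral_Ioc_eq_integral_Ioo,
    ← integral_Ico_eq_integral_Ioo]
  exact h1

end Pool.Agent.P.MP_7e8329_an
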