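import Pool.Agent.P.MP_7e8329_an.Ineq
import Pool.Agent.P.MP_7e8329_an.Length

set_option autoImplicit false

open Set MeasureTheory Filter Topology Complex Metric InnerProductSpace

namespace Pool.Agent.P.MP_7e8329_an

variable {U : Set ℂ} {γ γ₁ γ₂ : ℝ → ℂ} {ψ : ℂ → ℝ} {c₁ c₂ r₁ r₂ : ℝ}

theorem JC.Phi_pos (h : JC γ) (hψ : ContDiff ℝ 2 ψ) (hne : ∀ t, Fc ψ (γ t) ≠ 0) : 0 < Phi ψ γ := by
  have hF := (contDiff_Fc hψ).continuous
  have hγ := h.cont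
  have hγ1 := h.cont1
  exact intervalIntegral.intervalIntegral_pos_of_pos
    (Continuous.intervalIntegrable (by fun_prop) _ _)
    (fun t => mul_pos (norm_pos_iff.mpr (hne t)) (norm_pos_iff.mpr (h.reg t))) zero_lt_one

theorem JC.jensen (h : JC γ) (hψ : ContDiff ℝ 2 ψ) (hne : ∀ t, Fc ψ (γ t) ≠ 0) {n : ℝ}
    (hn : Nl ψ γ = n * Phi ψ γ) :
    Real.exp n * Phi ψ γ ≤ ∫ z in range γ, ‖Fc ψ z‖ ^ 2 ∂μH[1] := by
  have hF := (contDiff_Fc hψ).continuous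
  have hγ := h.cont
  have hγ1 := h.cont1
  have hp : ∀ t, 0 < ‖Fc ψ (γ t)‖ := fun t => norm_pos_iff.mpr (hne t)
  refine le_trans ?_ (h.integral_le_haus (f := fun z => ‖Fc ψ z‖ ^ 2) (by fun_prop)
    fun z => by positivity)
  have c3 : Continuous fun t => ‖Fc ψ (γ t)‖ * ‖deriv γ t‖ := by fun_prop
  have c4 : Continuous fun t => Real.log ‖Fc ψ (γ t)‖ * (‖Fc ψ (γ t)‖ * ‖deriv γ t‖) :=
    (Continuous.log (by fun_prop) fun t => (hp t).ne').mul c3
  have e1 : Real.exp n * Phi ψ γ = Real.exp n * (1 - n) * Phi ψ γ + Real.exp n * Nl ψ γ := by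
    rw [hn]; ring
  rw [e1, Phi, Nl, ← intervalIntegral.integral_const_mul, ← intervalIntegral.integral_const_mul,
    ← intervalIntegral.integral_add ((c3.const_mul _).intervalIntegrable _ _)
      ((c4.const_mul _).intervalIntegrable _ _)]
  refine intervalIntegral.integral_mono_on zero_le_one
    (((c3.const_mul _).fun_add (c4.const_mul _)).intervalIntegrable _ _)
    (Continuous.intervalIntegrable (by fun_prop) _ _) fun t _ => ?_
  have a1 := Real.add_one_le_exp (Real.log ‖Fc ψ (γ t)‖ - n)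
  rw [Real.exp_sub, Real.exp_log (hp t), le_div_iff₀ (Real.exp_pos n)] at a1
  have a2 : 0 ≤ ‖Fc ψ (γ t)‖ * ‖deriv γ t‖ := by positivity
  nlinarith [mul_le_mul_of_nonneg_left a1 a2]

theorem Ann.integrableOn (A : Ann U γ₁ γ₂ ψ c₁ c₂ r₁ r₂) {f : ℂ → ℝ} (hf : Continuous f) :
    IntegrableOn f U :=
  (hf.continuousOn.integrableOn_compact A.hb.isCompact_closure).mono_set subset_closure

theorem Ann.affine (A : Ann U γ₁ γ₂ ψ c₁ c₂ r₁ r₂) (a b : ℝ) :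
    a * ∫ z in U, ‖Fc ψ z‖ ^ 2 ≤ (a * c₂ + b) * Phi ψ γ₂ - (a * c₁ + b) * Phi ψ γ₁ := by
  have hF := (contDiff_Fc A.smooth).continuous
  have := A.main_ineq (k := fun _ => 0) (k₁ := fun _ => 0) (k₂ := fun _ => 0)
    (H := fun s => a * s + b) (H₁ := fun _ => a) (h := fun z => a * ‖Fc ψ z‖ ^ 2)
    (fun s => hasDerivAt_const s _) (fun s => hasDerivAt_const s _) continuous_const
    (fun s => by simpa using ((hasDerivAt_id s).const_mul a).add_const b) continuous_const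
    (fun _ _ _ => le_rfl) (A.integrableOn (by fun_prop)) (fun z _ y _ _ => le_of_eq (by ring))
  rw [integral_const_mul] at this
  linarith

theorem Ann.Phi_eq (A : Ann U γ₁ γ₂ ψ c₁ c₂ r₁ r₂) : Phi ψ γ₂ = Phi ψ γ₁ := by
  linarith [A.affine 0 1, A.affine 0 (-1)]

theorem Ann.energy (A : Ann U γ₁ γ₂ ψ c₁ c₂ r₁ r₂) :
    ∫ z in U, ‖Fc ψ z‖ ^ 2 = (c₂ - c₁) * Phi ψ γ₁ := by
  have h1 := A.affine 1 0
  have h2 := A.affine (-1) 0
  rw [A.Phi_eq] at h1 h2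
  linarith

theorem Ann.step1 (A : Ann U γ₁ γ₂ ψ c₁ c₂ r₁ r₂) :
    Nl ψ γ₁ - (c₂ - c₁) * W (deriv γ₂) ≤ Nl ψ γ₂ := by
  have := A.main_ineq (k := fun s => s - c₂) (k₁ := fun _ => 1) (k₂ := fun _ => 0)
    (H := fun _ => 0) (H₁ := fun _ => 0) (h := fun _ => 0)
    (fun s => (hasDerivAt_id s).sub_const c₂) (fun s => hasDerivAt_const s _) continuous_const
    (fun s => hasDerivAt_const s _) continuous_const
    (fun _ _ h => by linarith) integrableOn_zero (fun z _ y _ _ => le_of_eq (by ring))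
  rw [A.rot.1, integral_zero] at this
  linarith

theorem Ann.step2 (A : Ann U γ₁ γ₂ ψ c₁ c₂ r₁ r₂) {n κ : ℝ} (hκ : 0 < κ)
    (hn : Nl ψ γ₁ = n * Phi ψ γ₁) (hK : W (deriv γ₂) = κ * Phi ψ γ₁) :
    Phi ψ γ₁ * (Real.exp (-2 * n + 2 * κ * (c₂ - c₁)) - Real.exp (-2 * n)) / (2 * κ)
      ≤ (volume U).toReal := by
  set L : ℝ → ℝ := fun s => -2 * n + 2 * κ * (s - c₁) with hL
  have dL : ∀ s, HasDerivAt L (2 * κ) s := fun s =>
    ((((hasDerivAt_id s).sub_const c₁).const_mul (2 * κ)).const_add (-2 * n)).congr_deriv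
      (mul_one _)
  have dE : ∀ s, HasDerivAt (fun s => Real.exp (L s)) (Real.exp (L s) * (2 * κ)) s :=
    fun s => (dL s).exp
  have cL : Continuous L := by fun_prop
  have := A.main_ineq
    (k := fun s => (Real.exp (L s) - Real.exp (L c₁)) / (4 * κ ^ 2)
      - (s - c₁) * Real.exp (L c₂) / (2 * κ))
    (k₁ := fun s => (Real.exp (L s) - Real.exp (L c₂)) / (2 * κ)) (k₂ := fun s => Real.exp (L s))
    (H := fun s => -(Real.exp (L s) * (2 - L s) / (2 * κ)))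
    (H₁ := fun s => -(Real.exp (L s) * (1 - L s))) (h := fun _ => -1)
    (fun s => ((((dE s).sub_const _).div_const _).sub
      ((((hasDerivAt_id s).sub_const c₁).mul_const _).div_const _)).congr_deriv
        (by field_simp; ring))
    (fun s => (((dE s).sub_const _).div_const _).congr_deriv (by field_simp))
    (by fun_prop)
    (fun s => ((((dE s).mul ((dL s).const_sub 2)).div_const _).neg).congr_deriv
      (by field_simp; ring))
    (by fun_prop)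
    (fun s h1 h2 => by
      have a1 := Real.add_one_le_exp (L c₁ - L s)
      rw [Real.exp_sub, le_div_iff₀ (Real.exp_pos _)] at a1
      have a2 : Real.exp (L s) ≤ Real.exp (L c₂) := by
        apply Real.exp_le_exp.mpr
        simp only [hL]
        nlinarith
      have a3 : L c₁ - L s = -(2 * κ * (s - c₁)) := by simp only [hL]; ring
      rw [a3] at a1
      rw [sub_nonpos, div_le_div_iff₀ (by positivity) (by positivity)]
      have a4 : 0 ≤ 2 * κ * (s - c₁) := mul_nonneg (by positivity) (by linarith)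
      have a5 := mul_le_mul_of_nonneg_left a2 a4
      nlinarith [mul_le_mul_of_nonneg_left (show Real.exp (L s) - Real.exp (L c₁) ≤
        2 * κ * (s - c₁) * Real.exp (L c₂) by linarith) (show 0 ≤ 2 * κ by positivity)])
    (A.integrableOn continuous_const)
    (fun z _ y hy hle => by
      have b1 := Real.exp_pos (L (ψ z))
      have a1 := Real.one_sub_inv_le_log_of_pos (mul_pos hy b1)
      rw [Real.log_mul hy.ne' b1.ne', Real.log_exp] at a1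
      have a2 : ‖Fc ψ z‖ ^ 2 * Real.exp (L (ψ z)) * (y * Real.exp (L (ψ z)))⁻¹ ≤ 1 := by
        rw [mul_inv_le_iff₀ (mul_pos hy b1), one_mul]
        exact mul_le_mul_of_nonneg_right hle b1.le
      have a3 : 0 ≤ ‖Fc ψ z‖ ^ 2 * Real.exp (L (ψ z)) := by positivity
      nlinarith [mul_le_mul_of_nonneg_left a1 a3])
  rw [A.rot.1, A.Phi_eq, hn, hK, setIntegral_const, measureReal_def] at this
  have e1 : L c₁ = -2 * n := by simp [hL]
  have e2 : L c₂ = -2 * n + 2 * κ * (c₂ - c₁) := rfl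
  simp only [e1, e2, smul_eq_mul] at this
  rw [mul_neg_one, neg_le] at this
  refine le_trans (le_of_eq ?_) this
  field_simp
  ring

theorem algebra {Φ κ D n₁ n₂ S N : ℝ} (hΦ : 0 < Φ) (hκ : 0 < κ) (hD : 0 < D)
    (hK : 2 * Real.pi ≤ κ * Φ) (h1 : n₁ - κ * D ≤ n₂)
    (h2 : Φ * (Real.exp (-2 * n₁ + 2 * κ * D) - Real.exp (-2 * n₁)) / (2 * κ) ≤ S)
    (h3 : Real.exp n₁ * Φ + Real.exp n₂ * Φ ≤ N) :
    ∃ a b : ℝ, 0 < a ∧ a < b ∧ Real.pi * (b ^ 2 - a ^ 2) = S ∧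
      (1 / a + 1 / b) / Real.log (b / a) ≤ N / (D * Φ) := by
  have hπ := Real.pi_pos
  set ρ := Real.exp (κ * D) with hρ
  set x := Real.exp n₁ with hx
  have hx0 : 0 < x := Real.exp_pos _
  have hρ1 : 1 < ρ := Real.one_lt_exp_iff.mpr (by positivity)
  have hρ2 : 0 < ρ ^ 2 - 1 := by nlinarith
  have e1 : Real.exp (-2 * n₁) = 1 / x ^ 2 := by
    rw [hx, ← Real.exp_nat_mul, one_div, ← Real.exp_neg]
    congr 1
    push_cast
    ring
  have e2 : Real.exp (-2 * n₁ + 2 * κ * D) = ρ ^ 2 / x ^ 2 := by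
    rw [Real.exp_add, e1, hρ, one_div, div_eq_inv_mul, ← Real.exp_nat_mul (κ * D)]
    congr 2
    push_cast
    ring
  have e3 : x / ρ ≤ Real.exp n₂ := by
    rw [hx, hρ, ← Real.exp_sub]
    exact Real.exp_le_exp.mpr h1
  have e4 : Φ * (ρ ^ 2 / x ^ 2 - 1 / x ^ 2) / (2 * κ) = Φ * (ρ ^ 2 - 1) / (2 * κ * x ^ 2) := by
    field_simp
  rw [e1, e2, e4] at h2
  have hS : 0 < S := lt_of_lt_of_le (by positivity) h2
  set a := Real.sqrt (S / (Real.pi * (ρ ^ 2 - 1))) with ha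
  have ha0 : 0 < a := Real.sqrt_pos.mpr (by positivity)
  have ha2 : a ^ 2 = S / (Real.pi * (ρ ^ 2 - 1)) := Real.sq_sqrt (by positivity)
  have ha3 : Real.pi * ((ρ * a) ^ 2 - a ^ 2) = S := by
    rw [mul_pow, ha2]
    field_simp
  have ha4 : 1 ≤ a * κ * x := by
    rw [div_le_iff₀ (by positivity), ← ha3] at h2
    have b1 : Φ * (ρ ^ 2 - 1) ≤ (2 * Real.pi * κ * (a * x) ^ 2) * (ρ ^ 2 - 1) := by
      refine h2.trans (le_of_eq ?_)
      ring
    have b2 := le_of_mul_le_mul_right b1 hρ2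
    have b3 : 2 * Real.pi * 1 ≤ 2 * Real.pi * (a * κ * x) ^ 2 := by
      nlinarith [mul_le_mul_of_nonneg_left b2 hκ.le]
    have b4 := le_of_mul_le_mul_left b3 (by positivity)
    exact (one_le_sq_iff₀ (by positivity)).mp b4
  refine ⟨a, ρ * a, ha0, by nlinarith, ha3, ?_⟩
  rw [mul_div_assoc, div_self ha0.ne', mul_one, hρ, Real.log_exp, ← hρ,
    div_le_div_iff₀ (by positivity) (by positivity)]
  have c1 : (1 / a + 1 / (ρ * a)) * (D * Φ) * (a * κ * x) = (x * Φ + x / ρ * Φ) * (κ * D) := by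
    field_simp
  have c2 : x * Φ + x / ρ * Φ ≤ N := by nlinarith
  calc (1 / a + 1 / (ρ * a)) * (D * Φ)
      ≤ (1 / a + 1 / (ρ * a)) * (D * Φ) * (a * κ * x) :=
        le_mul_of_one_le_right (by positivity) ha4
    _ ≤ N * (κ * D) := by
        rw [c1]
        exact mul_le_mul_of_nonneg_right c2 (by positivity)

theorem Ann.final (A : Ann U γ₁ γ₂ ψ c₁ c₂ r₁ r₂) (hK : 2 * Real.pi ≤ W (deriv γ₂)) :
    ∃ a b : ℝ, 0 < a ∧ a < b ∧ Real.pi * (b ^ 2 - a ^ 2) = (volume U).toReal ∧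
      (1 / a + 1 / b) / Real.log (b / a) ≤
        (∫ z in frontier U, ‖fderiv ℝ ψ z‖ ^ 2 ∂μH[1]) / ∫ z in U, ‖fderiv ℝ ψ z‖ ^ 2 := by
  simp only [norm_fderiv_eq]
  have hF := (contDiff_Fc A.smooth).continuous
  have hΦ := A.s₁.jc.Phi_pos A.smooth A.ne₁
  have e1 : Nl ψ γ₁ = Nl ψ γ₁ / Phi ψ γ₁ * Phi ψ γ₁ := by field_simp
  have e2 : Nl ψ γ₂ = Nl ψ γ₂ / Phi ψ γ₁ * Phi ψ γ₁ := by field_simp
  have e3 : W (deriv γ₂) = W (deriv γ₂) / Phi ψ γ₁ * Phi ψ γ₁ := by field_simp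
  have hκ : 0 < W (deriv γ₂) / Phi ψ γ₁ := div_pos (Real.two_pi_pos.trans_le hK) hΦ
  have j1 := A.s₁.jc.jensen A.smooth A.ne₁ e1
  have j2 := A.s₂.jc.jensen A.smooth A.ne₂ (A.Phi_eq ▸ e2)
  rw [A.Phi_eq] at j2
  rw [A.energy, A.hf, setIntegral_union A.disj A.s₂.jc.isCompact.measurableSet
    (A.s₁.jc.integrableOn_haus (by fun_prop)) (A.s₂.jc.integrableOn_haus (by fun_prop))]
  refine algebra hΦ hκ (sub_pos.mpr A.lt) (e3 ▸ hK) ?_ (A.step2 hκ e1 e3) (add_le_add j1 j2)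
  have := A.step1
  rw [div_mul_eq_mul_div, ← sub_div]
  gcongr
  linarith

theorem Ann.result (A : Ann U γ₁ γ₂ ψ c₁ c₂ r₁ r₂) :
    ∃ a b : ℝ, 0 < a ∧ a < b ∧ Real.pi * (b ^ 2 - a ^ 2) = (volume U).toReal ∧
      (1 / a + 1 / b) / Real.log (b / a) ≤
        (∫ z in frontier U, ‖fderiv ℝ ψ z‖ ^ 2 ∂μH[1]) / ∫ z in U, ‖fderiv ℝ ψ z‖ ^ 2 := by
  rcases A.rot.2 with h | h
  · simpa only [fderiv_fun_neg, norm_neg] using A.swap.final h
  · exact A.final h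

theorem exists_ann (h₁ : JC γ₁) (h₂ : JC γ₂) (hd : Disjoint (range γ₁) (range γ₂))
    (ho : IsOpen U) (hconn : IsConnected U) (hb : Bornology.IsBounded U)
    (hf : frontier U = range γ₁ ∪ range γ₂) (hψ : ContDiff ℝ 2 ψ) (hh : HarmonicOnNhd ψ U)
    (hlt : c₁ < c₂) (v₁ : ∀ t, ψ (γ₁ t) = c₁) (v₂ : ∀ t, ψ (γ₂ t) = c₂) :
    ∃ γ₁' γ₂' r₁ r₂, Ann U γ₁' γ₂' ψ c₁ c₂ r₁ r₂ := by
  have hψc := hψ.continuous
  have k1 : HarmonicOnNhd (fun z => ψ z - c₁) U := hh.sub (harmonicOnNhd_const _)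
  have k2 : HarmonicOnNhd (fun z => c₂ - ψ z) U := (harmonicOnNhd_const _).sub hh
  have p1 := min_principle (φ := fun z => ψ z - c₁) (by fun_prop) ho hconn.isPreconnected hb k1
    (by
      rw [hf]
      rintro _ (⟨t, rfl⟩ | ⟨t, rfl⟩)
      · simp [v₁]
      · simp [v₂, hlt.le]) (q := γ₂ 0) (hf ▸ Or.inr ⟨0, rfl⟩) (by simp [v₂, hlt])
  have p2 := min_principle (φ := fun z => c₂ - ψ z) (by fun_prop) ho hconn.isPreconnected hb k2
    (by
      rw [hf]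
      rintro _ (⟨t, rfl⟩ | ⟨t, rfl⟩)
      · simp [v₁, hlt.le]
      · simp [v₂]) (q := γ₁ 0) (hf ▸ Or.inl ⟨0, rfl⟩) (by simp [v₁, hlt])
  obtain ⟨g₁, r₁, e₁, s₁⟩ := exists_side h₁ h₂.isCompact.isClosed hd ho hf
    (hψ.sub contDiff_const) k1 p1 (by simp [v₁]) (by rintro _ ⟨t, rfl⟩; simp [v₂, hlt])
  obtain ⟨g₂, r₂, e₂, s₂⟩ := exists_side h₂ h₁.isCompact.isClosed hd.symm ho
    (by rw [hf, union_comm]) (contDiff_const.sub hψ) k2 p2 (by simp [v₂])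
    (by rintro _ ⟨t, rfl⟩; simp [v₁, hlt])
  exact ⟨g₁, g₂, r₁, r₂, ho, hconn, hb, by rw [e₁, e₂, hf], by rwa [e₁, e₂], hψ, hh, hlt,
    fun z hz => sub_pos.mp (p1 z hz), fun z hz => sub_pos.mp (p2 z hz), e₂ ▸ s₁, e₁ ▸ s₂⟩

end Pool.Agent.P.MP_7e8329_an
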