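import Pool.Agent.P.MP_7e8329_an.Curve

set_option autoImplicit false

open Set MeasureTheory Filter Topology Complex Metric

namespace Pool.Agent.P.MP_7e8329_an

/-- The total variation of the argument of `f` over `[0,1]`. -/
noncomputable def W (f : ℝ → ℂ) : ℝ := (∫ t in (0 : ℝ)..1, deriv f t / f t).im

theorem lift_unique {A : Type} [TopologicalSpace A] [PreconnectedSpace A] {g₁ g₂ : A → ℂ}
    (h₁ : Continuous g₁) (h₂ : Continuous g₂) (he : ∀ a, exp (g₁ a) = exp (g₂ a)) (a : A)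
    (ha : g₁ a = g₂ a) : g₁ = g₂ :=
  isCoveringMap_exp.eq_of_comp_eq h₁ h₂ (funext fun x => Subtype.ext (he x)) a ha

theorem exists_lift {G : ℝ × ℝ → ℂ} (hc : Continuous G) (h0 : ∀ p, G p ≠ 0) :
    ∃ L : ℝ × ℝ → ℂ, Continuous L ∧ ∀ p, exp (L p) = G p := by
  obtain ⟨L, ⟨-, hL⟩, -⟩ := isCoveringMap_exp.existsUnique_continuousMap_lifts
    (⟨fun p => ⟨G p, h0 p⟩, by fun_prop⟩ : C(ℝ × ℝ, {z : ℂ // z ≠ 0})) (0, 0) (log (G (0, 0)))
    (Subtype.ext (exp_log (h0 _)))
  refine ⟨L, L.continuous, fun p => ?_⟩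
  exact congrArg Subtype.val (congrFun hL p)

theorem lift_integral {f L : ℝ → ℂ} (hf : ContDiff ℝ 1 f) (hL : Continuous L)
    (he : ∀ t, exp (L t) = f t) : ∫ t in (0 : ℝ)..1, deriv f t / f t = L 1 - L 0 := by
  have h0 : ∀ t, f t ≠ 0 := fun t => he t ▸ exp_ne_zero _
  have hc : Continuous (fun t => deriv f t / f t) :=
    (hf.continuous_deriv le_rfl).div hf.continuous h0
  set g : ℝ → ℂ := fun t => ∫ τ in (0 : ℝ)..t, deriv f τ / f τ with hg
  have hgd : ∀ t, HasDerivAt g (deriv f t / f t) t := fun t =>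
    (hc.integral_hasStrictDerivAt 0 t).hasDerivAt
  have hgc : Continuous g := continuous_iff_continuousAt.mpr fun t => (hgd t).continuousAt
  have hd : ∀ t, HasDerivAt (fun t => f t * exp (-g t)) 0 t := by
    intro t
    have h1 := (hf.differentiable (by simp) t).hasDerivAt
    have h2 : HasDerivAt (fun t => exp (-g t)) (exp (-g t) * -(deriv f t / f t)) t :=
      (hgd t).neg.cexp
    have h3 := h1.mul h2
    have h4 : deriv f t * exp (-g t) + f t * (exp (-g t) * -(deriv f t / f t)) = 0 := by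
      have := h0 t
      field_simp
      ring
    rw [h4] at h3
    exact h3
  have hconst : ∀ t, f t * exp (-g t) = f 0 := by
    intro t
    have := is_const_of_deriv_eq_zero (fun t => (hd t).differentiableAt)
      (fun t => (hd t).deriv) t 0
    simpa [hg] using this
  have h4 := lift_unique (g₁ := L) (g₂ := fun t => L 0 + g t) hL (by fun_prop) (by
    intro t
    rw [exp_add, he, he, ← hconst t, mul_assoc, ← exp_add]
    simp) 0 (by simp [hg])
  have h5 : L 1 = L 0 + g 1 := congrFun h4 1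
  rw [h5]
  simp [hg]

theorem W_int {f : ℝ → ℂ} (hf : ContDiff ℝ 1 f) (h0 : ∀ t, f t ≠ 0) (hp : f 1 = f 0) :
    ∃ k : ℤ, W f = 2 * Real.pi * k := by
  have hfc := hf.continuous
  obtain ⟨L, hL, he⟩ := exists_lift (G := fun p => f p.2) (by fun_prop) (fun p => h0 _)
  have h1 := lift_integral hf (L := fun t => L (0, t)) (by fun_prop) (fun t => he _)
  have h2 : exp (L (0, 1) - L (0, 0)) = 1 := by
    rw [exp_sub, he, he, hp, div_self (h0 _)]
  obtain ⟨k, hk⟩ := exp_eq_one_iff.mp h2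
  refine ⟨k, ?_⟩
  rw [W, h1, hk]
  simp
  ring

theorem W_homotopy {G : ℝ × ℝ → ℂ} (hc : Continuous G) (h0 : ∀ s ∈ Icc (0 : ℝ) 1, ∀ t, G (s, t) ≠ 0)
    (hp : ∀ s, G (s, 1) = G (s, 0)) {f₀ f₁ : ℝ → ℂ} (hf₀ : ContDiff ℝ 1 f₀) (hf₁ : ContDiff ℝ 1 f₁)
    (e₀ : ∀ t, G (0, t) = f₀ t) (e₁ : ∀ t, G (1, t) = f₁ t) : W f₀ = W f₁ := by
  obtain ⟨L, hL, he⟩ := exists_lift (G := fun p => G (max 0 (min p.1 1), p.2)) (by fun_prop)
    (fun p => h0 _ ⟨le_max_left _ _, max_le zero_le_one (min_le_right _ _)⟩ _)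
  have h1 := lift_integral hf₀ (L := fun t => L (0, t)) (by fun_prop) (fun t => by
    rw [he]; simpa using e₀ t)
  have h2 := lift_integral hf₁ (L := fun t => L (1, t)) (by fun_prop) (fun t => by
    rw [he]; simpa using e₁ t)
  have h3 := lift_unique (g₁ := fun s : ℝ => L (s, 1))
    (g₂ := fun s : ℝ => L (s, 0) + (L (0, 1) - L (0, 0))) (by fun_prop) (by fun_prop) (by
      intro s
      have h4 : exp (L (0, 1)) = exp (L (0, 0)) := by rw [he, he]; exact hp _
      rw [exp_add, exp_sub, h4, div_self (exp_ne_zero _), mul_one, he, he]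
      exact hp _) 0 (by simp)
  have h5 : L (1, 1) = L (1, 0) + (L (0, 1) - L (0, 0)) := congrFun h3 1
  rw [W, W, h1, h2, h5]
  simp

theorem W_torus {G : ℝ × ℝ → ℂ} (hc : Continuous G) (h0 : ∀ p, G p ≠ 0) {fd f₁ f₂ : ℝ → ℂ}
    (hd : ContDiff ℝ 1 fd) (hf₁ : ContDiff ℝ 1 f₁) (hf₂ : ContDiff ℝ 1 f₂)
    (ed : ∀ t, G (t, t) = fd t) (e₁ : ∀ s, G (s, 1) = f₁ s) (e₂ : ∀ t, G (0, t) = f₂ t) :
    W fd = W f₁ + W f₂ := by
  obtain ⟨L, hL, he⟩ := exists_lift hc h0
  have h1 := lift_integral hd (L := fun t => L (t, t)) (by fun_prop) (fun t => by rw [he, ed])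
  have h2 := lift_integral hf₁ (L := fun t => L (t, 1)) (by fun_prop) (fun t => by rw [he, e₁])
  have h3 := lift_integral hf₂ (L := fun t => L (0, t)) (by fun_prop) (fun t => by rw [he, e₂])
  rw [W, W, W, h1, h2, h3]
  simp

theorem W_const_mul {f : ℝ → ℂ} {c : ℂ} (hc : c ≠ 0) : W (fun t => c * f t) = W f := by
  unfold W
  congr 2
  ext t
  rw [deriv_const_mul_field, mul_div_mul_left _ _ hc]

/-- `2π` times the winding number. -/
noncomputable def wind (γ : ℝ → ℂ) (p : ℂ) : ℝ := (∫ t in (0 : ℝ)..1, deriv γ t / (γ t - p)).im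

theorem wind_eq_W (γ : ℝ → ℂ) (p : ℂ) : wind γ p = W (fun t => γ t - p) := by
  unfold wind W
  congr 2
  ext t
  rw [deriv_sub_const]

variable {γ : ℝ → ℂ}

theorem JC.smooth' (h : JC γ) : ContDiff ℝ 1 γ := h.smooth.of_le (by norm_num)

theorem JC.one (h : JC γ) : γ 1 = γ 0 := by simpa using h.per 0

theorem JC.wind_int (h : JC γ) {p : ℂ} (hp : p ∉ range γ) :
    ∃ k : ℤ, wind γ p = 2 * Real.pi * k := by
  rw [wind_eq_W]
  exact W_int (h.smooth'.sub contDiff_const) (fun t h0 => hp ⟨t, sub_eq_zero.mp h0⟩)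
    (by simp [h.one])

theorem JC.wind_path (h : JC γ) {q : ℝ → ℂ} (hq : Continuous q)
    (h0 : ∀ s ∈ Icc (0 : ℝ) 1, q s ∉ range γ) : wind γ (q 0) = wind γ (q 1) := by
  rw [wind_eq_W, wind_eq_W]
  have hc := h.cont
  exact W_homotopy (G := fun p => γ p.2 - q p.1) (by fun_prop)
    (fun s hs t h1 => h0 s hs ⟨t, sub_eq_zero.mp h1⟩) (fun s => by simp [h.one])
    (h.smooth'.sub contDiff_const) (h.smooth'.sub contDiff_const) (fun t => rfl) (fun t => rfl)

theorem JC.wind_joined (h : JC γ) {S : Set ℂ} (hS : Disjoint S (range γ)) {p q : ℂ}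
    (hj : JoinedIn S p q) : wind γ p = wind γ q := by
  obtain ⟨g, hg⟩ := hj
  have := h.wind_path (q := g.extend) g.continuous_extend (fun s hs => by
    rw [g.extend_apply hs]
    exact Set.disjoint_left.mp hS (hg _))
  simpa using this

theorem JC.wind_convex (h : JC γ) {S : Set ℂ} (hS : Disjoint S (range γ)) (hc : Convex ℝ S)
    {p q : ℂ} (hp : p ∈ S) (hq : q ∈ S) : wind γ p = wind γ q :=
  h.wind_joined hS ((hc.isPathConnected ⟨p, hp⟩).joinedIn p hp q hq)

theorem JC.wind_extreme (h : JC γ) {q : ℂ} (hq : q ∉ range γ) (hre : ∀ t, (γ t).re ≤ q.re) :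
    wind γ q = 0 := by
  rw [wind_eq_W]
  have hc := h.cont
  have := W_homotopy (G := fun p => (1 - (p.1 : ℂ)) * (γ p.2 - q) - p.1) (by fun_prop)
    (fun s hs t h1 => by
      have h2 := congrArg Complex.re h1
      simp at h2
      have h3 : (1 - s) * ((γ t).re - q.re) ≤ 0 :=
        mul_nonpos_of_nonneg_of_nonpos (by linarith [hs.2]) (by linarith [hre t])
      have h4 : s = 0 := by linarith [hs.1]
      subst h4
      simp at h1
      exact hq ⟨t, sub_eq_zero.mp h1⟩)
    (fun s => by simp [h.one]) (f₀ := fun t => γ t - q) (f₁ := fun _ => -1)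
    (h.smooth'.sub contDiff_const) contDiff_const (fun t => by simp) (fun t => by simp)
  rw [this]
  simp [W]

theorem JC.contDiff_Col (h : JC γ) (r : ℝ) : ContDiff ℝ 1 (fun t => Col γ t r) := by
  unfold Col
  exact h.smooth'.add (contDiff_const.mul (contDiff_const.mul h.smooth1))

/-- The rotation index is the sum of the winding numbers about the two sides. -/
theorem JC.rot_eq (h : JC γ) {r0 r : ℝ} (hR : Reach γ r0) (hr : 0 < r) (hr0 : r ≤ r0) :
    W (deriv γ) = wind γ (Col γ 0 r) + wind γ (Col γ 0 (-r)) := by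
  have hP := h.continuous_P
  have hP' : ∀ {a b : ℝ × ℝ → ℝ}, Continuous a → Continuous b →
      Continuous (fun p => Col γ (a p) (b p)) := fun ha hb => hP.comp (ha.prodMk hb)
  have hone : ∀ ρ, Col γ 1 ρ = Col γ 0 ρ := fun ρ => by simpa using h.P_int 0 ρ 1
  have ar : |r| ≤ r0 := by rwa [abs_of_pos hr]
  have ar' : |-r| ≤ r0 := by rwa [abs_neg]
  have h1 := W_torus (G := fun p => Col γ p.1 r - Col γ p.2 (-r))
    ((hP' continuous_fst continuous_const).sub (hP' continuous_snd continuous_const))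
    (fun p h0 => by
      have := (hR.P_eq h ar ar' (sub_eq_zero.mp h0)).2
      linarith)
    (fd := fun t => (2 * r * I) * deriv γ t) (f₁ := fun s => Col γ s r - Col γ 0 (-r))
    (f₂ := fun t => Col γ 0 r - Col γ t (-r))
    (contDiff_const.mul h.smooth1) ((h.contDiff_Col r).sub contDiff_const)
    (contDiff_const.sub (h.contDiff_Col (-r)))
    (fun t => by simp only [Col]; push_cast; ring) (fun s => by simp only [hone]) (fun t => rfl)
  rw [W_const_mul (mul_ne_zero (mul_ne_zero two_ne_zero (ofReal_ne_zero.mpr hr.ne')) I_ne_zero)]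
    at h1
  have h2 := W_homotopy (G := fun p => Col γ p.2 (p.1 * r) - Col γ 0 (-r))
    ((hP' continuous_snd (by fun_prop)).sub continuous_const)
    (fun s hs t h0 => by
      have a1 : |s * r| ≤ r0 := by
        rw [abs_of_nonneg (mul_nonneg hs.1 hr.le)]
        nlinarith [hs.1, hs.2]
      have := (hR.P_eq h a1 ar' (sub_eq_zero.mp h0)).2
      nlinarith [hs.1])
    (fun s => by simp only [hone]) (f₀ := fun t => γ t - Col γ 0 (-r))
    (f₁ := fun s => Col γ s r - Col γ 0 (-r))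
    (h.smooth'.sub contDiff_const) ((h.contDiff_Col r).sub contDiff_const)
    (fun t => by simp) (fun t => by simp)
  have h3 := W_homotopy (G := fun p => Col γ 0 r - Col γ p.2 (-(p.1 * r)))
    (continuous_const.sub (hP' continuous_snd (by fun_prop)))
    (fun s hs t h0 => by
      have a1 : |-(s * r)| ≤ r0 := by
        rw [abs_neg, abs_of_nonneg (mul_nonneg hs.1 hr.le)]
        nlinarith [hs.1, hs.2]
      have := (hR.P_eq h ar a1 (sub_eq_zero.mp h0)).2
      nlinarith [hs.1])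
    (fun s => by simp only [hone]) (f₀ := fun t => (-1) * (γ t - Col γ 0 r))
    (f₁ := fun t => Col γ 0 r - Col γ t (-r))
    (contDiff_const.mul (h.smooth'.sub contDiff_const))
    (contDiff_const.sub (h.contDiff_Col (-r)))
    (fun t => by simp) (fun t => by simp)
  rw [W_const_mul (by simp)] at h3
  rw [wind_eq_W, wind_eq_W, h1, ← h2, ← h3, add_comm]

end Pool.Agent.P.MP_7e8329_an
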