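import Pool.Agent.P.MP_7e8329_an.Green
import Pool.Agent.P.MP_7e8329_an.Wind

set_option autoImplicit false

open Set MeasureTheory Filter Topology Complex Metric InnerProductSpace

namespace Pool.Agent.P.MP_7e8329_an

theorem dbar_add {f g : ℂ → ℂ} {z : ℂ} (hf : DifferentiableAt ℝ f z) (hg : DifferentiableAt ℝ g z) :
    dbar (fun w => f w + g w) z = dbar f z + dbar g z := by
  unfold dbar
  rw [fderiv_fun_add hf hg]
  simp
  ring

theorem dbar_sub {f g : ℂ → ℂ} {z : ℂ} (hf : DifferentiableAt ℝ f z) (hg : DifferentiableAt ℝ g z) :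
    dbar (fun w => f w - g w) z = dbar f z - dbar g z := by
  unfold dbar
  rw [fderiv_fun_sub hf hg]
  simp
  ring

theorem dbar_const (c z : ℂ) : dbar (fun _ => c) z = 0 := by
  simp [dbar]

theorem realDiff {f : ℂ → ℂ} {f' z : ℂ} (hf : HasDerivAt f f' z) : DifferentiableAt ℝ f z :=
  (hf.hasFDerivAt.restrictScalars ℝ).differentiableAt

theorem conjDiff {f : ℂ → ℂ} {z : ℂ} (hf : DifferentiableAt ℝ f z) :
    DifferentiableAt ℝ (fun w => (starRingEnd ℂ) (f w)) z :=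
  conjCLE.differentiableAt.comp z hf

theorem dbar_conj {f : ℂ → ℂ} {f' z : ℂ} (hf : HasDerivAt f f' z) :
    dbar (fun w => (starRingEnd ℂ) (f w)) z = 2 * (starRingEnd ℂ) f' := by
  have h1 : fderiv ℝ (fun w => (starRingEnd ℂ) (f w)) z
      = (conjCLE : ℂ →L[ℝ] ℂ).comp (fderiv ℝ f z) :=
    (conjCLE.hasFDerivAt.comp z (realDiff hf).hasFDerivAt).fderiv
  unfold dbar
  rw [h1]
  simp only [ContinuousLinearMap.comp_apply, fderiv_of_hasDerivAt hf]
  simp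
  linear_combination (-(starRingEnd ℂ) f') * I_mul_I

theorem normSqDiff {f : ℂ → ℂ} {z : ℂ} (hf : DifferentiableAt ℝ f z) (e : ℝ) :
    DifferentiableAt ℝ (fun w => ‖f w‖ ^ 2 + e) z :=
  (hf.norm_sq ℝ).add_const e

theorem Fc_normSq {f : ℂ → ℂ} {f' z : ℂ} (hf : HasDerivAt f f' z) (e : ℝ) :
    Fc (fun w => ‖f w‖ ^ 2 + e) z = 2 * f' * (starRingEnd ℂ) (f z) := by
  have h0 := realDiff hf
  have h1 := dbar_real (normSqDiff h0 e)
  have h2 : (fun w => ((‖f w‖ ^ 2 + e : ℝ) : ℂ)) = fun w => f w * (starRingEnd ℂ) (f w) + e := by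
    ext w
    rw [mul_conj, normSq_eq_norm_sq]
    push_cast
    ring
  rw [h2, dbar_add (h0.fun_mul (conjDiff h0)) (differentiableAt_const _), dbar_const,
    dbar_mul h0 (conjDiff h0), dbar_holo hf, dbar_conj hf] at h1
  have h3 := congrArg (starRingEnd ℂ) h1
  simp only [conj_conj, map_mul, zero_mul, zero_add, add_zero, map_ofNat] at h3
  rw [← h3]
  ring

/-- The regularised logarithmic derivative. -/
noncomputable def Greg (f f1 : ℂ → ℂ) (e : ℝ) (w : ℂ) : ℂ :=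
  (starRingEnd ℂ) (f w) * f1 w * (((‖f w‖ ^ 2 + e)⁻¹ : ℝ) : ℂ)

theorem Greg_diff {f f1 : ℂ → ℂ} {z : ℂ} {e : ℝ} (hf : ContDiffAt ℝ 1 f z)
    (hf1 : ContDiffAt ℝ 1 f1 z) (he : 0 < e) : ContDiffAt ℝ 1 (Greg f f1 e) z := by
  unfold Greg
  refine ((conjCLE.contDiff.contDiffAt.comp z hf).mul hf1).mul ?_
  exact ofRealCLM.contDiff.contDiffAt.comp z
    (((hf.norm_sq ℝ).add contDiffAt_const).inv (by positivity))

theorem dbar_Greg {f f1 : ℂ → ℂ} {f2 z : ℂ} {e : ℝ} (hf : HasDerivAt f (f1 z) z)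
    (hf1 : HasDerivAt f1 f2 z) (he : 0 < e) :
    dbar (Greg f f1 e) z = ((2 * e * ‖f1 z‖ ^ 2 / (‖f z‖ ^ 2 + e) ^ 2 : ℝ) : ℂ) := by
  have h0 := realDiff hf
  have h1 := realDiff hf1
  have hp : 0 < ‖f z‖ ^ 2 + e := by positivity
  have h2 : DifferentiableAt ℝ (fun w => (‖f w‖ ^ 2 + e)⁻¹) z := (normSqDiff h0 e).inv hp.ne'
  have h3 : DifferentiableAt ℝ (fun w => (((‖f w‖ ^ 2 + e)⁻¹ : ℝ) : ℂ)) z :=
    ofRealCLM.differentiableAt.comp z h2
  have h4 := Fc_comp (normSqDiff h0 e) (hasDerivAt_inv hp.ne')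
  unfold Greg
  rw [dbar_mul ((conjDiff h0).fun_mul h1) h3, dbar_mul (conjDiff h0) h1, dbar_conj hf, dbar_holo hf1,
    dbar_real h2, h4, Fc_normSq hf]
  have a1 : (starRingEnd ℂ) (f1 z) * f1 z = (‖f1 z‖ ^ 2 : ℝ) := by
    rw [mul_comm, mul_conj, normSq_eq_norm_sq]
  have a2 : (starRingEnd ℂ) (f z) * f z = (‖f z‖ ^ 2 : ℝ) := by
    rw [mul_comm, mul_conj, normSq_eq_norm_sq]
  have a3 : ((‖f z‖ ^ 2 + e : ℝ) : ℂ) ≠ 0 := ofReal_ne_zero.mpr hp.ne'
  simp only [map_mul, conj_ofReal, conj_conj, map_ofNat]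
  push_cast at a1 a2 a3 ⊢
  field_simp
  linear_combination 2 * ((‖f z‖ : ℂ) ^ 2 + e - (starRingEnd ℂ) (f z) * f z) * a1
    - 2 * (‖f1 z‖ : ℂ) ^ 2 * a2

theorem Greg_zero {f f1 : ℂ → ℂ} {z : ℂ} (h : f z ≠ 0) : Greg f f1 0 z = f1 z / f z := by
  have a2 : (starRingEnd ℂ) (f z) * f z = (‖f z‖ ^ 2 : ℝ) := by
    rw [mul_comm, mul_conj, normSq_eq_norm_sq]
  have a3 : (‖f z‖ : ℂ) ≠ 0 := ofReal_ne_zero.mpr (norm_ne_zero_iff.mpr h)
  unfold Greg
  push_cast at a2 ⊢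
  field_simp
  linear_combination f1 z * a2

theorem im_integral {f : ℝ → ℂ} (hf : Continuous f) :
    (∫ t in (0 : ℝ)..1, f t).im = ∫ t in (0 : ℝ)..1, (f t).im :=
  (imCLM.intervalIntegral_comp_comm (hf.intervalIntegrable 0 1)).symm

variable {U : Set ℂ} {γ γ₁ γ₂ : ℝ → ℂ} {ψ : ℂ → ℝ} {c₁ c₂ r₁ r₂ : ℝ}

theorem JC.wind_eq (h : JC γ) {p : ℂ} (hp : p ∉ range γ) :
    wind γ p = ∫ t in (0 : ℝ)..1, ((γ t - p)⁻¹ * deriv γ t).im := by
  rw [wind, im_integral (f := fun t => deriv γ t / (γ t - p))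
    (h.cont1.div (h.cont.sub continuous_const) fun t h0 => hp ⟨t, sub_eq_zero.mp h0⟩)]
  simp only [div_eq_inv_mul]

theorem Ann.swap (A : Ann U γ₁ γ₂ ψ c₁ c₂ r₁ r₂) :
    Ann U γ₂ γ₁ (fun z => -ψ z) (-c₂) (-c₁) r₂ r₁ where
  ho := A.ho
  hconn := A.hconn
  hb := A.hb
  hf := by rw [A.hf, union_comm]
  disj := A.disj.symm
  smooth := A.smooth.neg
  harm := A.harm.neg
  lt := neg_lt_neg A.lt
  lower := fun z hz => neg_lt_neg (A.upper z hz)
  upper := fun z hz => neg_lt_neg (A.lower z hz)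
  s₁ := by
    convert A.s₂ using 2
    ring
  s₂ := by
    convert A.s₁ using 2
    ring

theorem Ann.notMem₁ (A : Ann U γ₁ γ₂ ψ c₁ c₂ r₁ r₂) {p : ℂ} (hp : p ∈ U) : p ∉ range γ₁ := by
  rintro ⟨t, rfl⟩
  exact absurd (A.val₁ t) (A.lower _ hp).ne'

theorem Ann.wind_out (A : Ann U γ₁ γ₂ ψ c₁ c₂ r₁ r₂) {p : ℂ} (hp : p ∉ closure U) :
    wind γ₁ p + wind γ₂ p = 0 := by
  have n1 : p ∉ range γ₁ := fun ⟨t, ht⟩ => hp (ht ▸ A.s₁.curve_mem t)
  have n2 : p ∉ range γ₂ := fun ⟨t, ht⟩ => hp (ht ▸ A.s₂.curve_mem t)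
  have key : ∀ c : ℝ, 0 ≤ c * (wind γ₁ p + wind γ₂ p) := by
    intro c
    have hne : ∀ z ∈ closure U, z - p ≠ 0 := fun z hz h0 => hp (sub_eq_zero.mp h0 ▸ hz)
    have h1 := A.green (Y := fun z => c * (z - p)⁻¹) (h := fun _ => 0)
      (continuousOn_const.mul ((continuousOn_id.sub continuousOn_const).inv₀ hne))
      (fun z hz => contDiffAt_const.mul
        ((contDiffAt_id.sub contDiffAt_const).inv (hne z (subset_closure hz))))
      (integrableOn_zero) (fun z hz => by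
        rw [dbar_holo (f := fun z => c * (z - p)⁻¹) ((((hasDerivAt_id z).sub_const p).inv
          (hne z (subset_closure hz))).const_mul (c : ℂ))]
        simp)
    simp only [flux, mul_assoc, im_ofReal_mul, intervalIntegral.integral_const_mul,
      integral_zero] at h1
    rw [A.s₁.jc.wind_eq n1, A.s₂.jc.wind_eq n2]
    linarith
  linarith [key 1, key (-1)]

theorem Ann.wind_const (A : Ann U γ₁ γ₂ ψ c₁ c₂ r₁ r₂) {p q : ℂ} (hp : p ∈ U) (hq : q ∈ U) :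
    wind γ₁ p = wind γ₁ q :=
  A.s₁.jc.wind_joined (Set.disjoint_left.mpr fun _ hz => A.notMem₁ hz)
    ((A.ho.isConnected_iff_isPathConnected.mp A.hconn).joinedIn p hp q hq)

theorem Ann.wind_col (A : Ann U γ₁ γ₂ ψ c₁ c₂ r₁ r₂) (t : ℝ) {r : ℝ} (hr : |r| ≤ r₂) :
    wind γ₁ (γ₂ t) = wind γ₁ (Col γ₂ t r) := by
  have := A.s₁.jc.wind_path (q := fun s => Col γ₂ t (s * r))
    (A.s₂.jc.continuous_P.comp (f := fun s : ℝ => (t, s * r)) (by fun_prop)) (fun s hs => by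
      apply A.s₂.avoid
      rw [abs_mul, abs_of_nonneg hs.1]
      exact (mul_le_of_le_one_left (abs_nonneg r) hs.2).trans hr)
  simpa using this

theorem Ann.rot₂ (A : Ann U γ₁ γ₂ ψ c₁ c₂ r₁ r₂) {p : ℂ} (hp : p ∈ U) :
    W (deriv γ₂) = wind γ₂ p - wind γ₁ p := by
  have h0 := A.s₂.r0_pos
  have h1 := A.s₂.left 0 r₂ h0 le_rfl
  have h2 := A.wind_out (A.s₂.right 0 r₂ h0 le_rfl)
  have h3 := A.wind_col 0 (r := r₂) (abs_of_pos h0).le
  have h4 := A.wind_col 0 (r := -r₂) (by rw [abs_neg]; exact (abs_of_pos h0).le)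
  rw [A.s₂.jc.rot_eq A.s₂.reach h0 le_rfl, A.swap.wind_const hp h1, A.wind_const hp h1]
  linarith

theorem JC.flux_cont (h : JC γ) {Y : ℝ → ℂ → ℂ} (hY : Continuous fun p : ℝ × ℝ => Y p.1 (γ p.2)) :
    Continuous fun e => flux (Y e) γ := by
  unfold flux
  apply intervalIntegral.continuous_parametric_intervalIntegral_of_continuous'
  exact continuous_im.comp (hY.mul (h.cont1.comp continuous_snd))

theorem Greg_cont {f f1 : ℂ → ℂ} (hf : Continuous f) (hf1 : Continuous f1) (hγ : Continuous γ)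
    (h0 : ∀ t, f (γ t) ≠ 0) : Continuous fun p : ℝ × ℝ => Greg f f1 (p.1 ^ 2) (γ p.2) := by
  unfold Greg
  refine Continuous.mul (by fun_prop) (continuous_ofReal.comp (Continuous.inv₀ (by fun_prop) ?_))
  intro p
  have := norm_pos_iff.mpr (h0 p.2)
  positivity

theorem Ann.wind_in (A : Ann U γ₁ γ₂ ψ c₁ c₂ r₁ r₂) {p : ℂ} (hp : p ∈ U) :
    0 < wind γ₁ p + wind γ₂ p := by
  have n1 := A.notMem₁ hp
  have n2 := A.swap.notMem₁ hp
  have m1 : ∀ t, γ₁ t - p ≠ 0 := fun t h0 => n1 ⟨t, sub_eq_zero.mp h0⟩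
  have m2 : ∀ t, γ₂ t - p ≠ 0 := fun t h0 => n2 ⟨t, sub_eq_zero.mp h0⟩
  set Y : ℝ → ℂ → ℂ := fun e => Greg (fun z => z - p) (fun _ => 1) (e ^ 2) with hY
  have c1 : Continuous fun e => flux (Y e) γ₁ :=
    A.s₁.jc.flux_cont (Greg_cont (by fun_prop) (by fun_prop) A.s₁.jc.cont m1)
  have c2 : Continuous fun e => flux (Y e) γ₂ :=
    A.s₂.jc.flux_cont (Greg_cont (by fun_prop) (by fun_prop) A.s₂.jc.cont m2)
  have e1 : flux (Y 0) γ₁ = wind γ₁ p := by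
    rw [A.s₁.jc.wind_eq n1, flux]
    congr 1
    ext t
    simp only [hY]
    rw [zero_pow two_ne_zero, Greg_zero (f := fun z => z - p) (m1 t), one_div]
  have e2 : flux (Y 0) γ₂ = wind γ₂ p := by
    rw [A.s₂.jc.wind_eq n2, flux]
    congr 1
    ext t
    simp only [hY]
    rw [zero_pow two_ne_zero, Greg_zero (f := fun z => z - p) (m2 t), one_div]
  obtain ⟨ρ, hρ, hb⟩ := Metric.isOpen_iff.mp A.ho p hp
  have lim := ((c1.add c2).tendsto 0).mono_left (nhdsWithin_le_nhds (s := Ioi 0))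
  rw [Pi.add_apply, e1, e2] at lim
  refine lt_of_lt_of_le (half_pos Real.pi_pos) (ge_of_tendsto lim ?_)
  filter_upwards [Ioo_mem_nhdsGT hρ] with e he
  have he0 := he.1
  have hsub : ball p e ⊆ U := (ball_subset_ball he.2.le).trans hb
  have hYd : ∀ z, ContDiffAt ℝ 1 (Y e) z := fun z =>
    Greg_diff (contDiffAt_id.sub contDiffAt_const) contDiffAt_const (by positivity)
  have h1 := A.green (Y := Y e) (h := (ball p e).indicator fun _ => (2 * e ^ 2)⁻¹)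
    (fun z _ => (hYd z).continuousAt.continuousWithinAt) (fun z _ => hYd z)
    ((integrableOn_const A.hb.measure_lt_top.ne).indicator measurableSet_ball) (fun z _ => by
      simp only [hY]
      rw [dbar_Greg (f := fun z => z - p) (f1 := fun _ => 1) (f2 := 0) (z := z)
        ((hasDerivAt_id z).sub_const p) (hasDerivAt_const z _) (by positivity), ofReal_re]
      by_cases hz : z ∈ ball p e
      · rw [indicator_of_mem hz, inv_eq_one_div, div_le_div_iff₀ (by positivity) (by positivity)]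
        rw [mem_ball, dist_eq_norm] at hz
        have a1 : ‖z - p‖ ^ 2 ≤ e ^ 2 := by gcongr
        have a2 : (‖z - p‖ ^ 2 + e ^ 2) ^ 2 ≤ (2 * e ^ 2) ^ 2 := by gcongr; linarith
        simp only [norm_one]
        nlinarith
      · rw [indicator_of_notMem hz]
        positivity)
  rw [setIntegral_indicator measurableSet_ball, inter_eq_right.mpr hsub, setIntegral_const,
    measureReal_def, Complex.volume_ball] at h1
  refine le_trans (le_of_eq ?_) h1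
  rw [ENNReal.toReal_mul, ENNReal.toReal_pow, ENNReal.toReal_ofReal he0.le]
  simp
  field_simp

theorem Ann.wind_zero (A : Ann U γ₁ γ₂ ψ c₁ c₂ r₁ r₂) {p : ℂ} (hp : p ∈ U) {t : ℝ}
    (ht : ∀ z ∈ closure U, z.re ≤ (γ₂ t).re) : 2 * Real.pi ≤ W (deriv γ₂) := by
  have h0 := A.s₂.r0_pos
  have h1 := A.s₁.jc.wind_extreme (q := γ₂ t) (Set.disjoint_right.mp A.disj ⟨t, rfl⟩)
    fun s => ht _ (A.s₁.curve_mem s)
  rw [A.wind_col t (abs_of_pos h0).le, A.wind_const (A.s₂.left t r₂ h0 le_rfl) hp] at h1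
  have h2 := A.wind_in hp
  obtain ⟨k, hk⟩ := A.s₂.jc.wind_int (A.swap.notMem₁ hp)
  rw [A.rot₂ hp, h1, sub_zero, hk]
  rw [h1, zero_add, hk] at h2
  have h3 : (0 : ℝ) < k := (mul_pos_iff_of_pos_left Real.two_pi_pos).mp h2
  have h4 : (1 : ℝ) ≤ k := by exact_mod_cast (show (1 : ℤ) ≤ k by exact_mod_cast h3)
  nlinarith [Real.two_pi_pos]

theorem Ann.rot (A : Ann U γ₁ γ₂ ψ c₁ c₂ r₁ r₂) : W (deriv γ₁) = -W (deriv γ₂) ∧
    (2 * Real.pi ≤ W (deriv γ₁) ∨ 2 * Real.pi ≤ W (deriv γ₂)) := by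
  obtain ⟨p, hp⟩ := A.hconn.nonempty
  refine ⟨by rw [A.rot₂ hp, A.swap.rot₂ hp]; ring, ?_⟩
  obtain ⟨m, hm, hmax⟩ := A.hb.isCompact_closure.exists_isMaxOn ⟨p, subset_closure hp⟩
    continuous_re.continuousOn
  have hmU : m ∉ U := by
    intro h1
    obtain ⟨ρ, hρ, hb⟩ := Metric.isOpen_iff.mp A.ho m h1
    have h2 : m + (ρ / 2 : ℝ) ∈ U := hb (by
      rw [mem_ball, dist_eq_norm, add_sub_cancel_left, norm_real, Real.norm_eq_abs,
        abs_of_pos (half_pos hρ)]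
      exact half_lt_self hρ)
    have h3 : (m + (ρ / 2 : ℝ)).re ≤ m.re := hmax (subset_closure h2)
    rw [add_re, ofReal_re] at h3
    linarith
  have h2 : m ∈ frontier U := ⟨hm, by rwa [A.ho.interior_eq]⟩
  rw [A.hf] at h2
  rcases h2 with ⟨t, rfl⟩ | ⟨t, rfl⟩
  · exact Or.inl (A.swap.wind_zero hp fun z hz => hmax hz)
  · exact Or.inr (A.wind_zero hp fun z hz => hmax hz)

end Pool.Agent.P.MP_7e8329_an
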