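import Pool.Agent.P.MP_7e8329_an.Main

/-!
Sharper form: the comparison annulus has the same area and the same conformal modulus.
-/

set_option autoImplicit false

open Set MeasureTheory Filter Topology Complex Metric InnerProductSpace

namespace Pool.Agent.P.MP_7e8329_an

variable {U : Set ℂ} {γ γ₁ γ₂ : ℝ → ℂ} {ψ : ℂ → ℝ} {c₁ c₂ r₁ r₂ : ℝ}

theorem integral_ker {e : ℝ} (he : 0 < e) (p : ℂ) :
    ∫ z : ℂ, 2 * e / (‖z - p‖ ^ 2 + e) ^ 2 = 2 * Real.pi := by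
  rw [integral_sub_right_eq_self (fun z : ℂ => 2 * e / (‖z‖ ^ 2 + e) ^ 2) p,
    integral_fun_norm_addHaar volume (fun y : ℝ => 2 * e / (y ^ 2 + e) ^ 2)]
  have h1 : ∫ y in Ioi (0 : ℝ), y ^ (Module.finrank ℝ ℂ - 1) • (2 * e / (y ^ 2 + e) ^ 2) =
      0 - -(e / (0 ^ 2 + e)) := by
    refine integral_Ioi_of_hasDerivAt_of_nonneg' (g := fun y => -(e / (y ^ 2 + e)))
      (fun y _ => ?_) (fun y hy => ?_) ?_
    · have h2 : y ^ 2 + e ≠ 0 := by positivity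
      refine (((hasDerivAt_const y e).div ((hasDerivAt_pow 2 y).add_const e) h2).neg).congr_deriv ?_
      simp only [finrank_real_complex, smul_eq_mul]
      field_simp
      ring
    · have : 0 < y := hy
      simp only [smul_eq_mul]
      positivity
    · rw [← neg_zero]
      exact (tendsto_const_nhds.div_atTop
        (tendsto_atTop_add_const_right _ e (tendsto_pow_atTop two_ne_zero))).neg
  rw [h1, measureReal_def, Complex.volume_ball, finrank_real_complex]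
  simp [he.ne']

theorem Ann.wind_le (A : Ann U γ₁ γ₂ ψ c₁ c₂ r₁ r₂) {p : ℂ} (hp : p ∈ U) :
    wind γ₁ p + wind γ₂ p ≤ 2 * Real.pi := by
  have n1 := A.notMem₁ hp
  have n2 := A.swap.notMem₁ hp
  have m1 : ∀ t, γ₁ t - p ≠ 0 := fun t h0 => n1 ⟨t, sub_eq_zero.mp h0⟩
  have m2 : ∀ t, γ₂ t - p ≠ 0 := fun t h0 => n2 ⟨t, sub_eq_zero.mp h0⟩
  set Y : ℝ → ℂ → ℂ := fun e => Greg (fun z => z - p) (fun _ => 1) (e ^ 2) with hY
  have c1 : Continuous fun e => flux (Y e) γ₁ :=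
    A.s₁.jc.flux_cont (Greg_cont (by fun_prop) (by fun_prop) A.s₁.jc.cont m1)
  have c2 : Continuous fun e => flux (Y e) γ₂ :=
    A.s₂.jc.flux_cont (Greg_cont (by fun_prop) (by fun_prop) A.s₂.jc.cont m2)
  have e1 : flux (Y 0) γ₁ = wind γ₁ p := by
    rw [A.s₁.jc.wind_eq n1, flux]
    congr 1
    ext t
    simp only [hY]
    rw [zero_pow two_ne_zero, Greg_zero (f := fun z => z - p) (m1 t), one_div]
  have e2 : flux (Y 0) γ₂ = wind γ₂ p := by
    rw [A.s₂.jc.wind_eq n2, flux]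
    congr 1
    ext t
    simp only [hY]
    rw [zero_pow two_ne_zero, Greg_zero (f := fun z => z - p) (m2 t), one_div]
  have lim := ((c1.add c2).tendsto 0).mono_left (nhdsWithin_le_nhds (s := Ioi 0))
  rw [Pi.add_apply, e1, e2] at lim
  refine le_of_tendsto lim ?_
  filter_upwards [self_mem_nhdsWithin] with e he
  have he0 : 0 < e := he
  have hYd : ∀ z, ContDiffAt ℝ 1 (Y e) z := fun z =>
    Greg_diff (contDiffAt_id.sub contDiffAt_const) contDiffAt_const (by positivity)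
  have hI := integral_ker (e := e ^ 2) (by positivity) p
  have hint : Integrable fun z : ℂ => 2 * e ^ 2 / (‖z - p‖ ^ 2 + e ^ 2) ^ 2 :=
    Integrable.of_integral_ne_zero (by rw [hI]; positivity)
  have h1 := A.green (Y := fun z => -Y e z)
    (h := fun z => -(2 * e ^ 2 / (‖z - p‖ ^ 2 + e ^ 2) ^ 2))
    (fun z _ => (hYd z).neg.continuousAt.continuousWithinAt) (fun z _ => (hYd z).neg)
    hint.neg.integrableOn (fun z _ => by
      have h2 : dbar (fun z => -Y e z) z = -dbar (Y e) z := by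
        simp only [dbar, fderiv_fun_neg, neg_apply]
        ring
      rw [h2]
      simp only [hY]
      rw [dbar_Greg (f := fun z => z - p) (f1 := fun _ => 1) (f2 := 0) (z := z)
        ((hasDerivAt_id z).sub_const p) (hasDerivAt_const z _) (by positivity), neg_re, ofReal_re]
      simp)
  have h3 : ∀ γ : ℝ → ℂ, flux (fun z => -Y e z) γ = -flux (Y e) γ := fun γ => by
    simp only [flux, neg_mul, neg_im, intervalIntegral.integral_neg]
  rw [h3, h3, integral_neg] at h1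
  have h4 := setIntegral_le_integral (s := U) hint (Eventually.of_forall fun z => by positivity)
  rw [hI] at h4
  simp only [Pi.add_apply]
  linarith

theorem algebra2 {Φ κ D n₁ n₂ S N : ℝ} (hΦ : 0 < Φ) (hκ : 0 < κ) (hD : 0 < D)
    (hK : 2 * Real.pi ≤ κ * Φ) (h1 : n₁ - κ * D ≤ n₂)
    (h2 : Φ * (Real.exp (-2 * n₁ + 2 * κ * D) - Real.exp (-2 * n₁)) / (2 * κ) ≤ S)
    (h3 : Real.exp n₁ * Φ + Real.exp n₂ * Φ ≤ N) :
    ∃ a b : ℝ, 0 < a ∧ a < b ∧ Real.pi * (b ^ 2 - a ^ 2) = S ∧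
      Real.log (b / a) = κ * D ∧ (1 / a + 1 / b) / Real.log (b / a) ≤ N / (D * Φ) := by
  have hπ := Real.pi_pos
  set ρ := Real.exp (κ * D) with hρ
  set x := Real.exp n₁ with hx
  have hx0 : 0 < x := Real.exp_pos _
  have hρ1 : 1 < ρ := Real.one_lt_exp_iff.mpr (by positivity)
  have hρ2 : 0 < ρ ^ 2 - 1 := by nlinarith
  have e1 : Real.exp (-2 * n₁) = 1 / x ^ 2 := by
    rw [hx, ← Real.exp_nat_mul, one_div, ← Real.exp_neg]
    congr 1
    push_cast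
    ring
  have e2 : Real.exp (-2 * n₁ + 2 * κ * D) = ρ ^ 2 / x ^ 2 := by
    rw [Real.exp_add, e1, hρ, one_div, div_eq_inv_mul, ← Real.exp_nat_mul (κ * D)]
    congr 2
    push_cast
    ring
  have e3 : x / ρ ≤ Real.exp n₂ := by
    rw [hx, hρ, ← Real.exp_sub]
    exact Real.exp_le_exp.mpr h1
  have e4 : Φ * (ρ ^ 2 / x ^ 2 - 1 / x ^ 2) / (2 * κ) = Φ * (ρ ^ 2 - 1) / (2 * κ * x ^ 2) := by
    field_simp
  rw [e1, e2, e4] at h2
  have hS : 0 < S := lt_of_lt_of_le (by positivity) h2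
  set a := Real.sqrt (S / (Real.pi * (ρ ^ 2 - 1))) with ha
  have ha0 : 0 < a := Real.sqrt_pos.mpr (by positivity)
  have ha2 : a ^ 2 = S / (Real.pi * (ρ ^ 2 - 1)) := Real.sq_sqrt (by positivity)
  have ha3 : Real.pi * ((ρ * a) ^ 2 - a ^ 2) = S := by
    rw [mul_pow, ha2]
    field_simp
  have ha4 : 1 ≤ a * κ * x := by
    rw [div_le_iff₀ (by positivity), ← ha3] at h2
    have b1 : Φ * (ρ ^ 2 - 1) ≤ (2 * Real.pi * κ * (a * x) ^ 2) * (ρ ^ 2 - 1) := by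
      refine h2.trans (le_of_eq ?_)
      ring
    have b2 := le_of_mul_le_mul_right b1 hρ2
    have b3 : 2 * Real.pi * 1 ≤ 2 * Real.pi * (a * κ * x) ^ 2 := by
      nlinarith [mul_le_mul_of_nonneg_left b2 hκ.le]
    have b4 := le_of_mul_le_mul_left b3 (by positivity)
    exact (one_le_sq_iff₀ (by positivity)).mp b4
  refine ⟨a, ρ * a, ha0, by nlinarith, ha3,
    by rw [mul_div_assoc, div_self ha0.ne', mul_one, hρ, Real.log_exp], ?_⟩
  rw [mul_div_assoc, div_self ha0.ne', mul_one, hρ, Real.log_exp, ← hρ,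
    div_le_div_iff₀ (by positivity) (by positivity)]
  have c1 : (1 / a + 1 / (ρ * a)) * (D * Φ) * (a * κ * x) = (x * Φ + x / ρ * Φ) * (κ * D) := by
    field_simp
  have c2 : x * Φ + x / ρ * Φ ≤ N := by nlinarith
  calc (1 / a + 1 / (ρ * a)) * (D * Φ)
      ≤ (1 / a + 1 / (ρ * a)) * (D * Φ) * (a * κ * x) :=
        le_mul_of_one_le_right (by positivity) ha4
    _ ≤ N * (κ * D) := by
        rw [c1]
        exact mul_le_mul_of_nonneg_right c2 (by positivity)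

theorem Ann.wind_two_pi (A : Ann U γ₁ γ₂ ψ c₁ c₂ r₁ r₂) {p : ℂ} (hp : p ∈ U) {t : ℝ}
    (ht : ∀ z ∈ closure U, z.re ≤ (γ₂ t).re) : W (deriv γ₂) = 2 * Real.pi := by
  refine le_antisymm ?_ (A.wind_zero hp ht)
  have h0 := A.s₂.r0_pos
  have h1 := A.s₁.jc.wind_extreme (q := γ₂ t) (Set.disjoint_right.mp A.disj ⟨t, rfl⟩)
    fun s => ht _ (A.s₁.curve_mem s)
  rw [A.wind_col t (abs_of_pos h0).le, A.wind_const (A.s₂.left t r₂ h0 le_rfl) hp] at h1
  have h2 := A.wind_le hp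
  rw [A.rot₂ hp]
  linarith

theorem Ann.rot_eq (A : Ann U γ₁ γ₂ ψ c₁ c₂ r₁ r₂) :
    W (deriv γ₁) = 2 * Real.pi ∨ W (deriv γ₂) = 2 * Real.pi := by
  obtain ⟨p, hp⟩ := A.hconn.nonempty
  obtain ⟨m, hm, hmax⟩ := A.hb.isCompact_closure.exists_isMaxOn ⟨p, subset_closure hp⟩
    continuous_re.continuousOn
  have hmU : m ∉ U := by
    intro h1
    obtain ⟨ρ, hρ, hb⟩ := Metric.isOpen_iff.mp A.ho m h1
    have h2 : m + (ρ / 2 : ℝ) ∈ U := hb (by
      rw [mem_ball, dist_eq_norm, add_sub_cancel_left, norm_real, Real.norm_eq_abs,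
        abs_of_pos (half_pos hρ)]
      exact half_lt_self hρ)
    have h3 : (m + (ρ / 2 : ℝ)).re ≤ m.re := hmax (subset_closure h2)
    rw [add_re, ofReal_re] at h3
    linarith
  have h2 : m ∈ frontier U := ⟨hm, by rwa [A.ho.interior_eq]⟩
  rw [A.hf] at h2
  rcases h2 with ⟨t, rfl⟩ | ⟨t, rfl⟩
  · exact Or.inl (A.swap.wind_two_pi hp fun z hz => hmax hz)
  · exact Or.inr (A.wind_two_pi hp fun z hz => hmax hz)

/-- The conclusion: a round annulus of the same area and modulus with no larger quotient. -/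
def Concl (U : Set ℂ) (ψ : ℂ → ℝ) (d : ℝ) : Prop :=
  ∃ a b : ℝ, 0 < a ∧ a < b ∧ Real.pi * (b ^ 2 - a ^ 2) = (volume U).toReal ∧
    ∫ z in U, ‖fderiv ℝ ψ z‖ ^ 2 = 2 * Real.pi * d ^ 2 / Real.log (b / a) ∧
    (1 / a + 1 / b) / Real.log (b / a) ≤
      (∫ z in frontier U, ‖fderiv ℝ ψ z‖ ^ 2 ∂μH[1]) / ∫ z in U, ‖fderiv ℝ ψ z‖ ^ 2

theorem Ann.final2 (A : Ann U γ₁ γ₂ ψ c₁ c₂ r₁ r₂) (hK : W (deriv γ₂) = 2 * Real.pi) :
    Concl U ψ (c₂ - c₁) := by
  simp only [Concl, norm_fderiv_eq]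
  have hF := (contDiff_Fc A.smooth).continuous
  have hΦ := A.s₁.jc.Phi_pos A.smooth A.ne₁
  have hD := sub_pos.mpr A.lt
  have e1 : Nl ψ γ₁ = Nl ψ γ₁ / Phi ψ γ₁ * Phi ψ γ₁ := by field_simp
  have e2 : Nl ψ γ₂ = Nl ψ γ₂ / Phi ψ γ₁ * Phi ψ γ₁ := by field_simp
  have e3 : W (deriv γ₂) = W (deriv γ₂) / Phi ψ γ₁ * Phi ψ γ₁ := by field_simp
  have hκ : 0 < W (deriv γ₂) / Phi ψ γ₁ := div_pos (hK ▸ Real.two_pi_pos) hΦ
  have j1 := A.s₁.jc.jensen A.smooth A.ne₁ e1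
  have j2 := A.s₂.jc.jensen A.smooth A.ne₂ (A.Phi_eq ▸ e2)
  rw [A.Phi_eq] at j2
  rw [A.energy, A.hf, setIntegral_union A.disj A.s₂.jc.isCompact.measurableSet
    (A.s₁.jc.integrableOn_haus (by fun_prop)) (A.s₂.jc.integrableOn_haus (by fun_prop))]
  obtain ⟨a, b, h1, h2, h3, h4, h5⟩ := algebra2 hΦ hκ hD (e3 ▸ hK.ge) (by
    have := A.step1
    rw [div_mul_eq_mul_div, ← sub_div]
    gcongr
    linarith) (A.step2 hκ e1 e3) (add_le_add j1 j2)
  refine ⟨a, b, h1, h2, h3, ?_, h5⟩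
  rw [h4, hK]
  have := Real.pi_pos
  field_simp

theorem Ann.result2 (A : Ann U γ₁ γ₂ ψ c₁ c₂ r₁ r₂) : Concl U ψ (c₂ - c₁) := by
  rcases A.rot_eq with h | h
  · have := A.swap.final2 h
    rw [show -c₁ - -c₂ = c₂ - c₁ by ring] at this
    simpa only [Concl, fderiv_fun_neg, norm_neg] using this
  · exact A.final2 h

theorem concl_global (h₁ : JC γ₁) (h₂ : JC γ₂) (hd : Disjoint (range γ₁) (range γ₂))
    (ho : IsOpen U) (hconn : IsConnected U) (hb : Bornology.IsBounded U)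
    (hf : frontier U = range γ₁ ∪ range γ₂) (hψ : ContDiff ℝ 2 ψ) (hh : HarmonicOnNhd ψ U)
    (hne : c₁ ≠ c₂) (v₁ : ∀ t, ψ (γ₁ t) = c₁) (v₂ : ∀ t, ψ (γ₂ t) = c₂) :
    Concl U ψ (c₂ - c₁) := by
  rcases hne.lt_or_gt with h | h
  · obtain ⟨_, _, _, _, A⟩ := exists_ann h₁ h₂ hd ho hconn hb hf hψ hh h v₁ v₂
    exact A.result2
  · obtain ⟨_, _, _, _, A⟩ := exists_ann h₂ h₁ hd.symm ho hconn hb
      (by rw [hf, Set.union_comm]) hψ hh h v₂ v₁
    have := A.result2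
    rwa [Concl, show (c₁ - c₂) ^ 2 = (c₂ - c₁) ^ 2 by ring] at this

/-- A function that is `C²` near a compact set agrees near it with a global `C²` function. -/
theorem exists_extension {K : Set ℂ} (hK : IsClosed K) (hψ : ∀ z ∈ K, ContDiffAt ℝ 2 ψ z) :
    ∃ ψ' : ℂ → ℝ, ContDiff ℝ 2 ψ' ∧ ∀ z ∈ K, ψ' =ᶠ[𝓝 z] ψ := by
  have hV : IsOpen {z | ContDiffAt ℝ 2 ψ z} :=
    isOpen_iff_mem_nhds.2 fun z hz => ContDiffAt.eventually hz (by simp)
  obtain ⟨f, h0, h1, -⟩ := exists_contMDiffMap_zero_one_nhds_of_isClosed (n := 2)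
    (modelWithCornersSelf ℝ ℂ) hV.isClosed_compl hK
    (Set.disjoint_left.2 fun z hz hzK => hz (hψ z hzK))
  have hf : ContDiff ℝ 2 f := f.contMDiff.contDiff
  refine ⟨fun z => f z * ψ z, contDiff_iff_contDiffAt.2 fun z => ?_, fun z hz => ?_⟩
  · by_cases hz : ContDiffAt ℝ 2 ψ z
    · exact hf.contDiffAt.mul hz
    · refine (contDiffAt_const (c := (0 : ℝ))).congr_of_eventuallyEq ?_
      filter_upwards [h0.filter_mono (nhds_le_nhdsSet hz)] with y hy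
      rw [hy, zero_mul]
  · filter_upwards [h1.filter_mono (nhds_le_nhdsSet hz)] with y hy
    rw [hy, one_mul]

theorem concl (h₁ : JC γ₁) (h₂ : JC γ₂) (hd : Disjoint (range γ₁) (range γ₂))
    (ho : IsOpen U) (hconn : IsConnected U) (hb : Bornology.IsBounded U)
    (hf : frontier U = range γ₁ ∪ range γ₂) (hh : HarmonicOnNhd ψ U)
    (hψ : ∀ z ∈ frontier U, ContDiffAt ℝ 2 ψ z)
    (hne : c₁ ≠ c₂) (v₁ : ∀ t, ψ (γ₁ t) = c₁) (v₂ : ∀ t, ψ (γ₂ t) = c₂) :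
    Concl U ψ (c₂ - c₁) := by
  obtain ⟨ψ', h1, h2⟩ := exists_extension (ψ := ψ) (K := closure U) isClosed_closure
    fun z hz => by
      by_cases h : z ∈ U
      · exact (hh z h).1
      · exact hψ z ⟨hz, by rwa [ho.interior_eq]⟩
  have hfr : ∀ z ∈ frontier U, ψ' z = ψ z := fun z hz =>
    (h2 z (frontier_subset_closure hz)).eq_of_nhds
  have := concl_global h₁ h₂ hd ho hconn hb hf h1
    (fun z hz => (harmonicAt_congr_nhds (h2 z (subset_closure hz))).2 (hh z hz)) hne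
    (fun t => (hfr _ (hf ▸ Or.inl ⟨t, rfl⟩)).trans (v₁ t))
    (fun t => (hfr _ (hf ▸ Or.inr ⟨t, rfl⟩)).trans (v₂ t))
  have e1 : ∫ z in U, ‖fderiv ℝ ψ' z‖ ^ 2 = ∫ z in U, ‖fderiv ℝ ψ z‖ ^ 2 :=
    setIntegral_congr_fun ho.measurableSet fun z hz => by
      simp only [(h2 z (subset_closure hz)).fderiv_eq]
  have e2 : ∫ z in frontier U, ‖fderiv ℝ ψ' z‖ ^ 2 ∂μH[1] =
      ∫ z in frontier U, ‖fderiv ℝ ψ z‖ ^ 2 ∂μH[1] :=
    setIntegral_congr_fun isClosed_frontier.measurableSet fun z hz => by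
      simp only [(h2 z (frontier_subset_closure hz)).fderiv_eq]
  rwa [Concl, e1, e2] at this

end Pool.Agent.P.MP_7e8329_an
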