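import Pool.Agent.P.MP_7e8329_an.Harm

set_option autoImplicit false

open Set MeasureTheory Filter Topology Complex Metric InnerProductSpace

namespace Pool.Agent.P.MP_7e8329_an

/-- The domain `U` lies on the left of the boundary curve `γ`, on which `φ` vanishes. -/
structure Side (U : Set ℂ) (γ : ℝ → ℂ) (φ : ℂ → ℝ) (Γ' : Set ℂ) (r0 : ℝ) : Prop where
  jc : JC γ
  r0_pos : 0 < r0
  reach : Reach γ r0
  avoid : ∀ t r, |r| ≤ r0 → Col γ t r ∉ Γ'
  left : ∀ t r, 0 < r → r ≤ r0 → Col γ t r ∈ U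
  right : ∀ t r, 0 < r → r ≤ r0 → Col γ t (-r) ∉ closure U
  zero : ∀ t, φ (γ t) = 0
  pos : ∀ z ∈ closure U, z ∉ range γ → 0 < φ z
  der : ∀ t, ∀ r ∈ Icc 0 r0, 0 < fderiv ℝ φ (Col γ t r) (I * deriv γ t)

theorem subset_or_of_disjoint_frontier {U S : Set ℂ} (ho : IsOpen U) (hS : IsPreconnected S)
    (hd : Disjoint S (frontier U)) : S ⊆ U ∨ S ⊆ (closure U)ᶜ := by
  apply hS.subset_or_subset ho isClosed_closure.isOpen_compl
  · exact Set.disjoint_left.mpr fun z h1 h2 => h2 (subset_closure h1)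
  · intro z hz
    by_cases h : z ∈ closure U
    · left
      by_contra h2
      exact Set.disjoint_left.mp hd hz ⟨h, by rwa [ho.interior_eq]⟩
    · exact Or.inr h

variable {γ : ℝ → ℂ}

/-- A radius for which the tangent discs avoid both boundary curves. -/
def Good (γ : ℝ → ℂ) (Γ' : Set ℂ) (r0 : ℝ) : Prop :=
  Reach γ r0 ∧ ∀ t r, |r| ≤ r0 → ∀ z ∈ Γ', |r| * ‖deriv γ t‖ < ‖z - Col γ t r‖

theorem JC.exists_good (h : JC γ) {Γ' : Set ℂ} (hc : IsClosed Γ') (hd : Disjoint (range γ) Γ') :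
    ∃ r0 > 0, Good γ Γ' r0 := by
  obtain ⟨r1, hr1, hR⟩ := h.exists_reach
  obtain ⟨M1, hM1, b1⟩ := exists_bound h.per1 h.cont1
  obtain ⟨d, hd0, hd1⟩ := h.isCompact.exists_thickening_subset_open hc.isOpen_compl
    (Set.disjoint_left.mp hd)
  refine ⟨min r1 (d / (4 * M1)), by positivity, Reach.mono hR (min_le_left _ _), ?_⟩
  intro t r hr z hz
  by_contra hcon
  have h1 : ‖z - Col γ t r‖ ≤ |r| * ‖deriv γ t‖ := not_lt.mp hcon
  have h2 : |r| * (4 * M1) ≤ d := by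
    have := hr.trans (min_le_right _ _)
    rwa [le_div_iff₀ (by positivity)] at this
  have h3 : |r| * ‖deriv γ t‖ ≤ |r| * M1 := mul_le_mul_of_nonneg_left (b1 t) (abs_nonneg _)
  have h4 : ‖z - γ t‖ ≤ ‖z - Col γ t r‖ + ‖Col γ t r - γ t‖ := norm_sub_le_norm_sub_add_norm_sub _ _ _
  rw [norm_P_sub] at h4
  refine hd1 (mem_thickening_iff.mpr ⟨γ t, ⟨t, rfl⟩, ?_⟩) hz
  rw [dist_eq_norm]
  linarith

theorem Good.rev {Γ' : Set ℂ} {r0 : ℝ} (h : Good γ Γ' r0) : Good (fun t => γ (-t)) Γ' r0 := by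
  constructor
  · intro s t r hr hst
    rw [P_rev, deriv_comp_neg, norm_neg, ← abs_neg r]
    exact h.1 _ _ _ (by rwa [abs_neg]) hst
  · intro t r hr z hz
    rw [P_rev, deriv_comp_neg, norm_neg, ← abs_neg r]
    exact h.2 _ _ (by rwa [abs_neg]) z hz

theorem Good.notMem {Γ' : Set ℂ} {r0 : ℝ} (h : Good γ Γ' r0) {t r : ℝ} (hr : |r| ≤ r0) :
    Col γ t r ∉ Γ' := by
  intro hz
  have := h.2 t r hr _ hz
  rw [sub_self, norm_zero] at this
  exact absurd this (not_lt.mpr (by positivity))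

theorem Good.left_or {U Γ' : Set ℂ} {r0 : ℝ} (hγ : JC γ) (h : Good γ Γ' r0) (ho : IsOpen U)
    (hf : frontier U = range γ ∪ Γ') :
    (∀ t r, 0 < r → r ≤ r0 → Col γ t r ∈ U) ∨ (∀ t r, 0 < r → r ≤ r0 → Col γ t r ∉ closure U) := by
  have hS : IsPreconnected ((fun p : ℝ × ℝ => Col γ p.1 p.2) '' (univ ×ˢ Ioc 0 r0)) :=
    (isPreconnected_univ.prod isPreconnected_Ioc).image _ hγ.continuous_P.continuousOn
  have hd : Disjoint ((fun p : ℝ × ℝ => Col γ p.1 p.2) '' (univ ×ˢ Ioc 0 r0)) (frontier U) := by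
    rw [Set.disjoint_left, hf]
    rintro _ ⟨p, hp, rfl⟩ hz
    have a1 : |p.2| ≤ r0 := by rw [abs_of_pos hp.2.1]; exact hp.2.2
    rcases hz with hz | hz
    · exact h.1.P_notMem hγ a1 hp.2.1.ne' hz
    · exact h.notMem a1 hz
  rcases subset_or_of_disjoint_frontier ho hS hd with h1 | h1
  · exact Or.inl fun t r h2 h3 => h1 ⟨(t, r), ⟨mem_univ _, h2, h3⟩, rfl⟩
  · exact Or.inr fun t r h2 h3 => h1 ⟨(t, r), ⟨mem_univ _, h2, h3⟩, rfl⟩

theorem Good.hopf {U Γ' : Set ℂ} {r0 : ℝ} (hγ : JC γ) (h : Good γ Γ' r0) (hr0 : 0 < r0)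
    (ho : IsOpen U) (hf : frontier U = range γ ∪ Γ') {φ : ℂ → ℝ} (hφ : ContDiff ℝ 2 φ)
    (hh : HarmonicOnNhd φ U) (hpos : ∀ z ∈ U, 0 < φ z) (hz : ∀ t, φ (γ t) = 0)
    (hl : ∀ t r, 0 < r → r ≤ r0 → Col γ t r ∈ U) (t : ℝ) :
    0 < fderiv ℝ φ (γ t) (I * deriv γ t) := by
  have a1 : |r0| ≤ r0 := (abs_of_pos hr0).le
  have hn : (r0 : ℂ) * (I * deriv γ t) ≠ 0 :=
    mul_ne_zero (ofReal_ne_zero.mpr hr0.ne') (mul_ne_zero I_ne_zero (hγ.reg t))
  have hnn : ‖(r0 : ℂ) * (I * deriv γ t)‖ = |r0| * ‖deriv γ t‖ := by simp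
  have hb : ball (γ t + r0 * (I * deriv γ t)) ‖(r0 : ℂ) * (I * deriv γ t)‖ ⊆ U := by
    have hd : Disjoint (ball (Col γ t r0) (|r0| * ‖deriv γ t‖)) (frontier U) := by
      rw [hf, Set.disjoint_union_right]
      refine ⟨h.1.ball_disjoint a1, Set.disjoint_left.mpr fun z h1 h2 => ?_⟩
      rw [mem_ball, dist_eq_norm] at h1
      exact absurd (h.2 t r0 a1 z h2) (not_lt.mpr h1.le)
    rw [hnn]
    rcases subset_or_of_disjoint_frontier ho (convex_ball _ _).isPreconnected hd with h1 | h1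
    · exact h1
    · exfalso
      refine h1 (mem_ball_self ?_) (subset_closure (hl t r0 hr0 le_rfl))
      rw [← hnn]; exact norm_pos_iff.mpr hn
  have h2 := Pool.Agent.P.MP_7e8329_an.hopf hφ.continuous hn
    (hφ.differentiable (by simp) _) (hh.mono hb) (fun z hz => hpos z (hb hz)) (hz t)
  have h3 : (r0 : ℂ) * (I * deriv γ t) = r0 • (I * deriv γ t) := by simp
  rw [h3, map_smul, smul_eq_mul] at h2
  exact (mul_pos_iff_of_pos_left hr0).mp h2

theorem side_of_left {U Γ' : Set ℂ} {r0 : ℝ} (hγ : JC γ) (h : Good γ Γ' r0) (hr0 : 0 < r0)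
    (ho : IsOpen U) (hf : frontier U = range γ ∪ Γ') {φ : ℂ → ℝ} (hφ : ContDiff ℝ 2 φ)
    (hh : HarmonicOnNhd φ U) (hpos : ∀ z ∈ U, 0 < φ z) (hz : ∀ t, φ (γ t) = 0)
    (hΓ : ∀ z ∈ Γ', 0 < φ z) (hl : ∀ t r, 0 < r → r ≤ r0 → Col γ t r ∈ U) :
    ∃ r1, Side U γ φ Γ' r1 := by
  have h1 := h.hopf hγ hr0 ho hf hφ hh hpos hz hl
  have hright : ∀ t r, 0 < r → r ≤ r0 → Col γ t (-r) ∉ closure U := by
    rcases h.rev.left_or hγ.rev ho (by rw [range_rev]; exact hf) with h2 | h2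
    · exfalso
      have h3 := h.rev.hopf hγ.rev hr0 ho (by rw [range_rev]; exact hf) hφ hh hpos
        (fun t => hz _) h2 0
      rw [deriv_comp_neg, mul_neg, map_neg, neg_zero] at h3
      linarith [h1 0]
    · intro t r h3 h4
      have := h2 (-t) r h3 h4
      rwa [P_rev, neg_neg] at this
  have hk : Continuous (fun p : ℝ × ℝ => fderiv ℝ φ (Col γ p.2 p.1) (I * deriv γ p.2)) := by
    have c1 : Continuous (fderiv ℝ φ) := hφ.continuous_fderiv (by simp)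
    have c2 : Continuous (fun p : ℝ × ℝ => Col γ p.2 p.1) := hγ.continuous_P.comp continuous_swap
    have c3 := hγ.cont1
    exact (c1.comp c2).clm_apply (by fun_prop)
  have h4 : ∀ᶠ r in 𝓝 (0 : ℝ), ∀ t ∈ Icc (0 : ℝ) 1,
      0 < fderiv ℝ φ (Col γ t r) (I * deriv γ t) := by
    apply isCompact_Icc.eventually_forall_of_forall_eventually
    intro t _
    exact hk.continuousAt.eventually (lt_mem_nhds (by simpa using h1 t))
  obtain ⟨ε, hε, h5⟩ := Metric.eventually_nhds_iff.mp h4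
  refine ⟨min r0 (ε / 2), hγ, by positivity, h.1.mono (min_le_left _ _),
    fun t r hr => h.notMem (hr.trans (min_le_left _ _)),
    fun t r h6 h7 => hl t r h6 (h7.trans (min_le_left _ _)),
    fun t r h6 h7 => hright t r h6 (h7.trans (min_le_left _ _)), hz, ?_, ?_⟩
  · intro z hzc hzγ
    by_cases hU : z ∈ U
    · exact hpos z hU
    · have : z ∈ frontier U := ⟨hzc, by rwa [ho.interior_eq]⟩
      rw [hf] at this
      exact hΓ z (this.resolve_left hzγ)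
  · intro t r hr
    have h6 : dist r 0 < ε := by
      rw [Real.dist_eq, sub_zero, abs_of_nonneg hr.1]
      linarith [hr.2.trans (min_le_right _ _)]
    have := h5 h6 (Int.fract t) (Ico_subset_Icc_self (fract_mem t))
    rwa [hγ.P_fract, per_fract hγ.per1] at this

theorem exists_side {U Γ' : Set ℂ} (hγ : JC γ) (hc : IsClosed Γ') (hd : Disjoint (range γ) Γ')
    (ho : IsOpen U) (hf : frontier U = range γ ∪ Γ') {φ : ℂ → ℝ} (hφ : ContDiff ℝ 2 φ)
    (hh : HarmonicOnNhd φ U) (hpos : ∀ z ∈ U, 0 < φ z) (hz : ∀ t, φ (γ t) = 0)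
    (hΓ : ∀ z ∈ Γ', 0 < φ z) :
    ∃ γ' r1, range γ' = range γ ∧ Side U γ' φ Γ' r1 := by
  obtain ⟨r0, hr0, h⟩ := hγ.exists_good hc hd
  have hf' : frontier U = range (fun t => γ (-t)) ∪ Γ' := by rw [range_rev]; exact hf
  rcases h.left_or hγ ho hf with h1 | h1
  · obtain ⟨r1, h2⟩ := side_of_left hγ h hr0 ho hf hφ hh hpos hz hΓ h1
    exact ⟨γ, r1, rfl, h2⟩
  · rcases h.rev.left_or hγ.rev ho hf' with h2 | h2
    · obtain ⟨r1, h3⟩ := side_of_left hγ.rev h.rev hr0 ho hf' hφ hh hpos (fun t => hz _) hΓ h2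
      exact ⟨_, r1, range_rev, h3⟩
    · exfalso
      obtain ⟨ε, hε, h3⟩ := hγ.exists_foot hr0
      have h4 : γ 0 ∈ closure U := frontier_subset_closure (by rw [hf]; exact Or.inl ⟨0, rfl⟩)
      obtain ⟨z, hzU, hz1⟩ := Metric.mem_closure_iff.mp h4 ε hε
      rw [dist_comm, dist_eq_norm] at hz1
      obtain ⟨t, -, r, hr, rfl⟩ := h3 z 0 hz1
      rcases lt_trichotomy r 0 with h5 | h5 | h5
      · have := h2 (-t) (-r) (by linarith) (by rw [abs_of_neg h5] at hr; exact hr.le)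
        rw [P_rev, neg_neg, neg_neg] at this
        exact this (subset_closure hzU)
      · subst h5
        have := hpos _ hzU
        rw [P_zero, hz] at this
        exact lt_irrefl _ this
      · exact h1 t r h5 (by rw [abs_of_pos h5] at hr; exact hr.le) (subset_closure hzU)

end Pool.Agent.P.MP_7e8329_an
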